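import Mathlib

/-!
Inequalities for families of finite sets.
-/

set_option autoImplicit false

namespace Pool.Agent.H94.EX

open Finset

/-- tangent line inequality -/
theorem tangent {c z : ℝ} (hc : 0 ≤ c) (hz : 0 ≤ z) (s : ℕ) :
    c ^ s - s * c ^ (s - 1) * (c - z) ≤ z ^ s := by
  rcases Nat.eq_zero_or_pos s with rfl | hs
  · simp
  obtain ⟨k, rfl⟩ : ∃ k, s = k + 1 := ⟨s - 1, by omega⟩
  rw [Nat.add_sub_cancel]
  rcases hc.eq_or_lt with rfl | hc
  · rcases Nat.eq_zero_or_pos k with rfl | hk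
    · simp
    · rw [zero_pow (by omega), zero_pow (by omega)]
      simpa using pow_nonneg hz _
  have h1 := one_add_mul_le_pow (a := z / c - 1) (by
    have := div_nonneg hz hc.le
    linarith) (k + 1)
  have h2 : (1 + (z / c - 1)) ^ (k + 1) = z ^ (k + 1) / c ^ (k + 1) := by
    rw [← div_pow]; congr 1; ring
  rw [h2, le_div_iff₀ (by positivity)] at h1
  refine le_trans (le_of_eq ?_) h1
  have h3 : (z / c) * c = z := div_mul_cancel₀ _ hc.ne'
  have h4 : c ^ (k + 1) = c ^ k * c := pow_succ _ _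
  calc c ^ (k + 1) - ((k + 1 : ℕ) : ℝ) * c ^ k * (c - z)
      = c ^ (k + 1) - ((k + 1 : ℕ) : ℝ) * c ^ k * (c - z / c * c) := by rw [h3]
    _ = (1 + ((k + 1 : ℕ) : ℝ) * (z / c - 1)) * c ^ (k + 1) := by rw [h4]; ring

theorem tangent' {c z : ℝ} (hc : 0 ≤ c) {s : ℕ} (hs : 1 ≤ s) {w : ℝ} (hw : 0 ≤ w)
    (hz : z ≤ w) : c ^ s - s * c ^ (s - 1) * (c - z) ≤ w ^ s := by
  by_cases h0 : 0 ≤ z
  · exact (tangent hc h0 s).trans (pow_le_pow_left₀ h0 hz s)
  · push Not at h0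
    refine le_trans ?_ (pow_nonneg hw s)
    obtain ⟨k, rfl⟩ : ∃ k, s = k + 1 := ⟨s - 1, by omega⟩
    rw [Nat.add_sub_cancel]
    have h1 : 0 ≤ c ^ k := pow_nonneg hc k
    have h2 : c ^ (k + 1) = c ^ k * c := pow_succ _ _
    have h3 : (1 : ℝ) ≤ ((k + 1 : ℕ) : ℝ) := by exact_mod_cast hs
    have h4 : c ^ k * c ≤ ((k + 1 : ℕ) : ℝ) * c ^ k * c := by
      have := mul_le_mul_of_nonneg_right h3 (mul_nonneg h1 hc)
      linarith
    have h5 : 0 ≤ ((k + 1 : ℕ) : ℝ) * c ^ k * (-z) := by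
      have : (0 : ℝ) ≤ -z := by linarith
      positivity
    nlinarith


theorem hoelder {ι : Type} (P : Finset ι) (m a : ι → ℝ) (hm : ∀ p ∈ P, 0 ≤ m p)
    (ha : ∀ p ∈ P, 0 ≤ a p) (h0 : ∀ p ∈ P, a p = 0 → m p = 0) (k : ℕ) (S : ℝ)
    (hS : S = ∑ p ∈ P, a p ^ (k + 1)) (hS0 : 0 < S) :
    (∑ p ∈ P, m p * a p ^ k) ^ (k + 1) / S ^ k ≤ ∑ p ∈ P, m p ^ (k + 1) := by
  have h3 := Real.pow_arith_mean_le_arith_mean_pow P
    (fun p => a p ^ (k + 1) / S) (fun p => m p / a p)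
    (fun p hp => div_nonneg (pow_nonneg (ha p hp) _) hS0.le)
    (by rw [← sum_div, ← hS, div_self hS0.ne'])
    (fun p hp => div_nonneg (hm p hp) (ha p hp)) (k + 1)
  have h4 : ∑ p ∈ P, a p ^ (k + 1) / S * (m p / a p) = (∑ p ∈ P, m p * a p ^ k) / S := by
    rw [sum_div]
    refine sum_congr rfl fun p hp => ?_
    by_cases hz : a p = 0
    · rw [h0 p hp hz]; simp
    · rw [pow_succ]; field_simp
  have h5 : ∑ p ∈ P, a p ^ (k + 1) / S * (m p / a p) ^ (k + 1) = (∑ p ∈ P, m p ^ (k + 1)) / S := by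
    rw [sum_div]
    refine sum_congr rfl fun p hp => ?_
    by_cases hz : a p = 0
    · rw [h0 p hp hz]; simp
    · rw [div_pow]; field_simp
  rw [h4, h5, div_pow, le_div_iff₀ hS0] at h3
  refine le_trans (le_of_eq ?_) h3
  rw [div_mul_eq_mul_div, div_eq_div_iff (pow_pos hS0 _).ne' (pow_pos hS0 _).ne']
  ring

variable {α β : Type} [DecidableEq α] [DecidableEq β]

/-- the intersections of two different members of a family of sets -/
def mm (A : β → Finset α) (p : β × β) : ℝ := if p.1 = p.2 then 0 else ((A p.1 ∩ A p.2).card : ℝ)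

theorem mm_nonneg (A : β → Finset α) (p : β × β) : 0 ≤ mm A p := by
  unfold mm
  split_ifs
  · exact le_rfl
  · exact Nat.cast_nonneg _

theorem sum_pairs (Y : Finset β) (A : β → Finset α) (k : ℕ) :
    ∑ x ∈ Y, ∑ y ∈ Y.erase x, ((A x ∩ A y).card : ℝ) ^ (k + 1) =
      ∑ p ∈ Y ×ˢ Y, mm A p ^ (k + 1) := by
  rw [sum_product]
  refine sum_congr rfl fun x hx => ?_
  rw [← sum_erase Y (a := x) (f := fun y => mm A (x, y) ^ (k + 1)) (by
    unfold mm
    rw [if_pos rfl, zero_pow (Nat.succ_ne_zero _)])]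
  refine sum_congr rfl fun y hy => ?_
  have : x ≠ y := fun h => (mem_erase.1 hy).1 h.symm
  unfold mm
  rw [if_neg this]

theorem sum_sq_D (N : Finset α) (Y : Finset β) (A : β → Finset α) (hA : ∀ y ∈ Y, A y ⊆ N)
    (b : β → ℝ) :
    ∑ v ∈ N, (∑ x ∈ Y.filter (fun x => v ∈ A x), b x) ^ 2 =
      ∑ p ∈ Y ×ˢ Y, ((A p.1 ∩ A p.2).card : ℝ) * (b p.1 * b p.2) := by
  have h5 : ∀ v, (∑ x ∈ Y.filter (fun x => v ∈ A x), b x) ^ 2 =
      ∑ p ∈ Y ×ˢ Y, if v ∈ A p.1 ∩ A p.2 then b p.1 * b p.2 else 0 := by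
    intro v
    rw [sum_filter, sq, sum_mul_sum, sum_product]
    refine sum_congr rfl fun x _ => sum_congr rfl fun y _ => ?_
    by_cases hx : v ∈ A x <;> by_cases hy : v ∈ A y <;> simp [hx, hy]
  rw [sum_congr rfl fun v _ => h5 v, sum_comm]
  refine sum_congr rfl fun p hp => ?_
  rw [← sum_filter, sum_const, nsmul_eq_mul]
  have : N.filter (fun v => v ∈ A p.1 ∩ A p.2) = A p.1 ∩ A p.2 := by
    ext v
    rw [mem_filter]
    exact ⟨fun h => h.2, fun h => ⟨hA _ (mem_product.1 hp).1 (mem_inter.1 h).1, h⟩⟩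
  rw [this]

theorem sum_D (N : Finset α) (Y : Finset β) (A : β → Finset α) (hA : ∀ y ∈ Y, A y ⊆ N)
    (b : β → ℝ) :
    ∑ v ∈ N, (∑ x ∈ Y.filter (fun x => v ∈ A x), b x) = ∑ x ∈ Y, ((A x).card : ℝ) * b x := by
  simp only [sum_filter]
  rw [sum_comm]
  refine sum_congr rfl fun x hx => ?_
  rw [← sum_filter, sum_const, nsmul_eq_mul]
  have : N.filter (fun v => v ∈ A x) = A x := by
    ext v
    rw [mem_filter]
    exact ⟨fun h => h.2, fun h => ⟨hA x hx h, h⟩⟩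
  rw [this]

theorem W_ge (N : Finset α) (Y : Finset β) (A : β → Finset α) (hA : ∀ y ∈ Y, A y ⊆ N)
    (k : ℕ) (e c : ℝ) (hc : c = N.card) (hc0 : 0 < c) (hsm : ∀ y ∈ Y, ((A y).card : ℝ) ≤ e)
    (T : ℝ) (hT : T = ∑ y ∈ Y, ((A y).card : ℝ) ^ (k + 1)) :
    T ^ 2 / c - e ^ k * T ≤
      ∑ p ∈ Y ×ˢ Y, mm A p * (((A p.1).card : ℝ) * ((A p.2).card : ℝ)) ^ k := by
  have h3 := sum_D N Y A hA fun x => ((A x).card : ℝ) ^ k
  have h4 := sum_sq_D N Y A hA fun x => ((A x).card : ℝ) ^ k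
  have h3' : ∑ x ∈ Y, ((A x).card : ℝ) * ((A x).card : ℝ) ^ k = T := by
    rw [hT]
    exact sum_congr rfl fun x _ => (pow_succ' _ _).symm
  rw [h3'] at h3
  have h5 : T ^ 2 / c ≤
      ∑ v ∈ N, (∑ x ∈ Y.filter (fun x => v ∈ A x), ((A x).card : ℝ) ^ k) ^ 2 := by
    rw [div_le_iff₀ hc0, ← h3, mul_comm, hc]
    exact sq_sum_le_card_mul_sum_sq
  rw [h4] at h5
  have h7 : ∑ p ∈ Y ×ˢ Y, (if p.1 = p.2 then ((A p.1).card : ℝ) *
      (((A p.1).card : ℝ) ^ k * ((A p.2).card : ℝ) ^ k) else 0) ≤ e ^ k * T := by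
    rw [sum_product, hT, mul_sum]
    refine sum_le_sum fun x hx => ?_
    dsimp only
    rw [sum_ite_eq, if_pos hx]
    have h8 : ((A x).card : ℝ) ^ k ≤ e ^ k := pow_le_pow_left₀ (Nat.cast_nonneg _) (hsm x hx) k
    calc ((A x).card : ℝ) * (((A x).card : ℝ) ^ k * ((A x).card : ℝ) ^ k)
        = ((A x).card : ℝ) ^ k * ((A x).card : ℝ) ^ (k + 1) := by ring
      _ ≤ e ^ k * ((A x).card : ℝ) ^ (k + 1) :=
        mul_le_mul_of_nonneg_right h8 (pow_nonneg (Nat.cast_nonneg _) _)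
  have h8 : ∀ p ∈ Y ×ˢ Y, ((A p.1 ∩ A p.2).card : ℝ) *
      (((A p.1).card : ℝ) ^ k * ((A p.2).card : ℝ) ^ k) -
      (if p.1 = p.2 then ((A p.1).card : ℝ) *
        (((A p.1).card : ℝ) ^ k * ((A p.2).card : ℝ) ^ k) else 0) ≤
      mm A p * (((A p.1).card : ℝ) * ((A p.2).card : ℝ)) ^ k := by
    intro p _
    unfold mm
    rw [mul_pow]
    by_cases hp : p.1 = p.2
    · rw [if_pos hp, if_pos hp, ← hp, inter_self]; simp
    · rw [if_neg hp, if_neg hp]; simp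
  have h9 := sum_le_sum h8
  rw [sum_sub_distrib] at h9
  linarith

/-- **The main inequality.** A family of subsets of a set with `c` elements, all of them small: the
intersections of two different members are as large as one expects. -/
theorem pairs_ge (N : Finset α) (Y : Finset β) (A : β → Finset α) (hA : ∀ y ∈ Y, A y ⊆ N)
    (k : ℕ) (ε c : ℝ) (hc : c = N.card) (hc0 : 0 < c) (hε : 0 ≤ ε)
    (hsm : ∀ y ∈ Y, ((A y).card : ℝ) ≤ ε * c)
    (T : ℝ) (hT : T = ∑ y ∈ Y, ((A y).card : ℝ) ^ (k + 1)) :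
    T ^ 2 / c ^ (k + 1) - (k + 1) * ε ^ k * T ≤
      ∑ x ∈ Y, ∑ y ∈ Y.erase x, ((A x ∩ A y).card : ℝ) ^ (k + 1) := by
  rw [sum_pairs]
  have hT0 : 0 ≤ T := by
    rw [hT]
    exact sum_nonneg fun y _ => pow_nonneg (Nat.cast_nonneg _) _
  have hrhs : 0 ≤ ∑ p ∈ Y ×ˢ Y, mm A p ^ (k + 1) :=
    sum_nonneg fun p _ => pow_nonneg (mm_nonneg A p) _
  rcases hT0.eq_or_lt with hT1 | hT1
  · rw [← hT1]
    simpa using hrhs
  have h2 := hoelder (Y ×ˢ Y) (mm A) (fun p => ((A p.1).card : ℝ) * ((A p.2).card : ℝ))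
    (fun p _ => mm_nonneg A p) (fun p _ => mul_nonneg (Nat.cast_nonneg _) (Nat.cast_nonneg _))
    (by
      intro p _ h
      unfold mm
      split_ifs with hxy
      · rfl
      · rcases mul_eq_zero.1 h with h | h
        · have h2 : (A p.1).card = 0 := Nat.cast_eq_zero.1 h
          rw [card_eq_zero] at h2
          simp [h2]
        · have h2 : (A p.2).card = 0 := Nat.cast_eq_zero.1 h
          rw [card_eq_zero] at h2
          simp [h2]) k (T ^ 2) (by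
      rw [sum_product, sq, hT, sum_mul_sum]
      refine sum_congr rfl fun x _ => sum_congr rfl fun y _ => ?_
      exact (mul_pow _ _ _).symm) (by positivity)
  have h7 := W_ge N Y A hA k (ε * c) c hc hc0 hsm T hT
  have hW0 : 0 ≤ ∑ p ∈ Y ×ˢ Y, mm A p * (((A p.1).card : ℝ) * ((A p.2).card : ℝ)) ^ k :=
    sum_nonneg fun p _ => mul_nonneg (mm_nonneg A p)
      (pow_nonneg (mul_nonneg (Nat.cast_nonneg _) (Nat.cast_nonneg _)) _)
  generalize (∑ p ∈ Y ×ˢ Y, mm A p * (((A p.1).card : ℝ) * ((A p.2).card : ℝ)) ^ k) = W at *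
  have h8 := tangent' (c := T ^ 2 / c) (by positivity) (s := k + 1) (by omega) hW0 h7
  rw [Nat.add_sub_cancel] at h8
  refine le_trans ?_ h2
  rw [le_div_iff₀ (by positivity)]
  refine le_trans (le_of_eq ?_) h8
  have e1 : T ^ 2 / c - (T ^ 2 / c - (ε * c) ^ k * T) = (ε * c) ^ k * T := by ring
  rw [e1, div_pow, div_pow, mul_pow, Nat.cast_succ]
  have hck : c ^ k ≠ 0 := (pow_pos hc0 k).ne'
  rw [sub_mul, div_mul_eq_mul_div, ← pow_succ', ← pow_mul]
  congr 1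
  field_simp

end Pool.Agent.H94.EX
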