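import Mathlib

/-!
The system of inequalities for the limits has only one solution.
-/

set_option autoImplicit false

namespace Pool.Agent.H94.EX

/-- a linear error term can be dropped -/
theorem le_of_small {a b C δ0 : ℝ} (hC : 0 ≤ C) (hδ0 : 0 < δ0)
    (h : ∀ δ, 0 < δ → δ < δ0 → a ≤ b + C * δ) : a ≤ b := by
  refine le_of_forall_pos_le_add fun η hη => ?_
  have h1 : 0 < min (δ0 / 2) (η / (C + 1)) := lt_min (by positivity) (by positivity)
  have h2 := h _ h1 (lt_of_le_of_lt (min_le_left _ _) (by linarith))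
  have h3 : C * min (δ0 / 2) (η / (C + 1)) ≤ η := by
    calc C * min (δ0 / 2) (η / (C + 1)) ≤ C * (η / (C + 1)) :=
          mul_le_mul_of_nonneg_left (min_le_right _ _) hC
      _ = C / (C + 1) * η := by ring
      _ ≤ 1 * η := by
          refine mul_le_mul_of_nonneg_right ?_ hη.le
          rw [div_le_one (by positivity)]
          linarith
      _ = η := one_mul _
  linarith

theorem final (κ : ℕ → ℝ) (l : ℕ) (hl : 1 ≤ l) (M : ℝ) (hM : 0 < M) (h0 : κ 0 = 1)
    (hlast : κ (l + 1) ≤ M * κ l)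
    (H : ∀ j, j + 1 ≤ l → ∀ δ, 0 < δ → ∃ e g q : ℝ, 0 ≤ e ∧ 0 ≤ g ∧ e + g = κ (j + 1) ∧
      M * κ j ≤ g ∧ g ^ 2 ≤ q * κ j ∧ 2 * M * g - M ^ 2 * κ j ≤ q ∧
        2 * M * e + q - δ * g ≤ κ (j + 2)) :
    ∀ j ≤ l + 1, κ j = M ^ j := by
  -- lower bounds
  have hlow : ∀ j ≤ l, M ^ j ≤ κ j := by
    intro j
    induction j with
    | zero => intro _; rw [h0, pow_zero]
    | succ j ih =>
      intro hj
      obtain ⟨e, g, q, he, hg, heg, h1, -⟩ := H j hj 1 one_pos
      have h2 := mul_le_mul_of_nonneg_left (ih (by omega)) hM.le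
      rw [pow_succ']
      linarith
  have hpos : ∀ j ≤ l, 0 < κ j := fun j hj => lt_of_lt_of_le (pow_pos hM j) (hlow j hj)
  have hstep : ∀ j, j + 1 ≤ l → ∀ δ, 0 < δ → ∃ e g q : ℝ, 0 ≤ e ∧ 0 ≤ g ∧ e + g = κ (j + 1) ∧
      g ^ 2 ≤ q * κ j ∧ q - δ * g ≤ κ (j + 2) ∧
        M * κ (j + 1) + M * e - δ * g ≤ κ (j + 2) := by
    intro j hj δ hδ
    obtain ⟨e, g, q, he, hg, heg, h1, h2, h3, h4⟩ := H j hj δ hδ
    refine ⟨e, g, q, he, hg, heg, h2, ?_, ?_⟩
    · have : 0 ≤ M * e := by positivity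
      linarith
    · have h5 : M ^ 2 * κ j ≤ M * g := by
        calc M ^ 2 * κ j = M * (M * κ j) := by ring
          _ ≤ M * g := mul_le_mul_of_nonneg_left h1 hM.le
      rw [← heg]
      linarith
  -- upper bounds for the quotients
  have hup : ∀ i j, i + j = l → κ (j + 1) ≤ M * κ j := by
    intro i
    induction i with
    | zero =>
      intro j hj
      rw [zero_add] at hj
      rw [hj]
      exact hlast
    | succ i ih =>
      intro j hj
      have h1 := ih (j + 1) (by omega)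
      have hκ1 : 0 < κ (j + 1) := hpos _ (by omega)
      have hκ0 : 0 < κ j := hpos _ (by omega)
      refine le_of_small (C := 2 * κ (j + 1) / M + κ j) (δ0 := M) (by positivity) hM ?_
      intro δ hδ hδM
      obtain ⟨e, g, q, he, hg, heg, h2, h3, h4⟩ := hstep j (by omega) δ hδ
      have h5 : M * e ≤ δ * g := by linarith
      have hgle : g ≤ κ (j + 1) := by linarith
      have h6 : e ≤ δ / M * κ (j + 1) := by
        rw [div_mul_eq_mul_div, le_div_iff₀ hM]
        have := mul_le_mul_of_nonneg_left hgle hδ.le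
        linarith
      have h7 : κ (j + 1) * (1 - δ / M) ≤ g := by
        rw [mul_sub, mul_one, mul_comm]
        linarith
      have h8 : 0 ≤ 1 - δ / M := by
        rw [sub_nonneg, div_le_one hM]
        exact hδM.le
      have h9 : (κ (j + 1) * (1 - δ / M)) ^ 2 ≤ g ^ 2 :=
        pow_le_pow_left₀ (by positivity) h7 2
      have h10 : q ≤ M * κ (j + 1) + δ * κ (j + 1) := by
        have := mul_le_mul_of_nonneg_left hgle hδ.le
        linarith
      have h11 : (κ (j + 1) * (1 - δ / M)) ^ 2 ≤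
          (M * κ (j + 1) + δ * κ (j + 1)) * κ j :=
        (h9.trans h2).trans (mul_le_mul_of_nonneg_right h10 hκ0.le)
      have h12 : κ (j + 1) * (1 - δ / M) ^ 2 ≤ (M + δ) * κ j := by
        have : κ (j + 1) * (κ (j + 1) * (1 - δ / M) ^ 2) ≤ κ (j + 1) * ((M + δ) * κ j) := by
          calc _ = (κ (j + 1) * (1 - δ / M)) ^ 2 := by ring
            _ ≤ _ := h11
            _ = _ := by ring
        exact le_of_mul_le_mul_left this hκ1
      have h13 : 1 - 2 * (δ / M) ≤ (1 - δ / M) ^ 2 := by nlinarith [sq_nonneg (δ / M)]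
      have h14 := mul_le_mul_of_nonneg_left h13 hκ1.le
      have h15 : κ (j + 1) * (1 - 2 * (δ / M)) = κ (j + 1) - 2 * κ (j + 1) / M * δ := by ring
      rw [h15] at h14
      nlinarith
  have hdn : ∀ j, j + 1 ≤ l → M * κ (j + 1) ≤ κ (j + 2) := by
    intro j hj
    have hκ1 : 0 < κ (j + 1) := hpos _ hj
    refine le_of_small (C := κ (j + 1)) (δ0 := 1) hκ1.le one_pos ?_
    intro δ hδ _
    obtain ⟨e, g, q, he, hg, heg, h2, h3, h4⟩ := hstep j hj δ hδ
    have hgle : g ≤ κ (j + 1) := by linarith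
    have := mul_le_mul_of_nonneg_left hgle hδ.le
    have : 0 ≤ M * e := by positivity
    linarith
  intro j
  induction j with
  | zero => intro _; rw [h0, pow_zero]
  | succ j ih =>
    intro hj
    have h1 := hup (l - j) j (by omega)
    have h2 : M * κ j ≤ κ (j + 1) := by
      rcases Nat.eq_zero_or_pos j with rfl | hj0
      · obtain ⟨e, g, q, he, hg, heg, h1, -⟩ := H 0 hl 1 one_pos
        rw [← heg]
        linarith
      · obtain ⟨i, rfl⟩ : ∃ i, j = i + 1 := ⟨j - 1, by omega⟩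
        exact hdn i (by omega)
    rw [le_antisymm h1 h2, ih (by omega), pow_succ']

end Pool.Agent.H94.EX
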