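import Pool.Agent.H94.EX.Fam

/-!
Common neighbourhoods in a relation `R` on a finite set `V`.
-/

set_option autoImplicit false

namespace Pool.Agent.H94.EX

open Finset

variable {V : Type} [Fintype V] [DecidableEq V]

theorem desc_mul (c k : ℕ) :
    (c : ℝ) * ((c : ℝ) ^ k - (c.descFactorial k : ℝ)) ≤ (k : ℝ) ^ 2 * (c : ℝ) ^ k := by
  induction k with
  | zero => simp
  | succ k ih =>
    have h1 : ((c : ℝ) - k) * (c.descFactorial k : ℝ) ≤ (c.descFactorial (k + 1) : ℝ) := by
      rw [Nat.descFactorial_succ, Nat.cast_mul]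
      refine mul_le_mul_of_nonneg_right ?_ (Nat.cast_nonneg _)
      have : (c : ℝ) ≤ ((c - k + k : ℕ) : ℝ) := by exact_mod_cast le_tsub_add
      rw [Nat.cast_add] at this
      linarith
    have h2 : (c.descFactorial k : ℝ) ≤ (c : ℝ) ^ k := by
      exact_mod_cast Nat.descFactorial_le_pow c k
    have hc : (0 : ℝ) ≤ c := Nat.cast_nonneg _
    have hk : (0 : ℝ) ≤ k := Nat.cast_nonneg _
    have h3 : (0 : ℝ) ≤ (c : ℝ) ^ k := pow_nonneg hc k
    calc (c : ℝ) * ((c : ℝ) ^ (k + 1) - (c.descFactorial (k + 1) : ℝ))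
        ≤ (c : ℝ) * ((c : ℝ) ^ (k + 1) - ((c : ℝ) - k) * (c.descFactorial k : ℝ)) :=
          mul_le_mul_of_nonneg_left (by linarith) hc
      _ = (c : ℝ) * ((c : ℝ) * ((c : ℝ) ^ k - (c.descFactorial k : ℝ)) +
            k * (c.descFactorial k : ℝ)) := by ring
      _ ≤ (c : ℝ) * ((k : ℝ) ^ 2 * (c : ℝ) ^ k + k * (c : ℝ) ^ k) := by
          refine mul_le_mul_of_nonneg_left ?_ hc
          have := mul_le_mul_of_nonneg_left h2 hk
          linarith
      _ = ((k : ℝ) ^ 2 + k) * (c : ℝ) ^ (k + 1) := by ring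
      _ ≤ ((k + 1 : ℕ) : ℝ) ^ 2 * (c : ℝ) ^ (k + 1) := by
          refine mul_le_mul_of_nonneg_right ?_ (pow_nonneg hc _)
          push_cast
          nlinarith

theorem desc_ge (c k : ℕ) :
    (c : ℝ) ^ (k + 1) - ((k : ℝ) + 1) ^ 2 * (c : ℝ) ^ k ≤ (c.descFactorial (k + 1) : ℝ) := by
  have h := desc_mul c (k + 1)
  rcases Nat.eq_zero_or_pos c with rfl | hc
  · rw [Nat.zero_descFactorial_succ]
    have : (0 : ℝ) ≤ ((k : ℝ) + 1) ^ 2 * ((0 : ℕ) : ℝ) ^ k := by positivity
    simp only [Nat.cast_zero] at this ⊢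
    rw [zero_pow (Nat.succ_ne_zero _)]
    linarith
  · have hc' : (0 : ℝ) < c := by exact_mod_cast hc
    have h2 : (c : ℝ) * ((c : ℝ) ^ (k + 1) - (c.descFactorial (k + 1) : ℝ)) ≤
        (c : ℝ) * (((k : ℝ) + 1) ^ 2 * (c : ℝ) ^ k) := by
      refine h.trans (le_of_eq ?_)
      push_cast
      ring
    have h3 := le_of_mul_le_mul_left h2 hc'
    linarith

/-- double counting: adding an element to a set -/
theorem sum_insert_powerset (N : Finset V) (j : ℕ) (f : Finset V → V → ℝ) :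
    ∑ A ∈ powersetCard j N, ∑ y ∈ N \ A, f (insert y A) y =
      ∑ B ∈ powersetCard (j + 1) N, ∑ y ∈ B, f B y := by
  rw [sum_sigma', sum_sigma']
  refine sum_bij' (fun p _ => ⟨insert p.2 p.1, p.2⟩) (fun p _ => ⟨p.1.erase p.2, p.2⟩)
    ?_ ?_ ?_ ?_ ?_
  · rintro ⟨A, y⟩ h
    simp only [mem_sigma, mem_powersetCard, mem_sdiff] at h ⊢
    obtain ⟨⟨h1, h2⟩, h3, h4⟩ := h
    refine ⟨⟨insert_subset h3 h1, ?_⟩, mem_insert_self _ _⟩
    rw [card_insert_of_notMem h4, h2]
  · rintro ⟨B, y⟩ h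
    simp only [mem_sigma, mem_powersetCard, mem_sdiff] at h ⊢
    obtain ⟨⟨h1, h2⟩, h3⟩ := h
    refine ⟨⟨(erase_subset _ _).trans h1, ?_⟩, h1 h3, notMem_erase _ _⟩
    rw [card_erase_of_mem h3, h2, Nat.add_sub_cancel]
  · rintro ⟨A, y⟩ h
    simp only [mem_sigma, mem_sdiff] at h
    simp only [erase_insert h.2.2]
  · rintro ⟨B, y⟩ h
    simp only [mem_sigma] at h
    simp only [insert_erase h.2]
  · rintro ⟨A, y⟩ _
    rfl

theorem sum_insert_powerset' (N : Finset V) (j : ℕ) (g : Finset V → ℝ) :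
    ∑ A ∈ powersetCard j N, ∑ y ∈ N \ A, g (insert y A) =
      (j + 1) * ∑ B ∈ powersetCard (j + 1) N, g B := by
  rw [sum_insert_powerset N j fun B _ => g B, mul_sum]
  refine sum_congr rfl fun B hB => ?_
  rw [sum_const, nsmul_eq_mul, (mem_powersetCard.1 hB).2]
  push_cast
  ring

variable (R : V → V → Prop) [DecidableRel R]

/-- the elements related to all elements of `J` -/
def nb (J : Finset V) : Finset V := univ.filter fun x => ∀ y ∈ J, R x y

/-- the elements to which all elements of `S` are related -/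
def cn (S : Finset V) : Finset V := univ.filter fun y => ∀ x ∈ S, R x y

/-- the number of elements related to all elements of `J` -/
noncomputable def cc (J : Finset V) : ℝ := ((nb R J).card : ℝ)

variable {R}

theorem cc_nonneg (J : Finset V) : 0 ≤ cc R J := Nat.cast_nonneg _

theorem mem_nb {J : Finset V} {x : V} : x ∈ nb R J ↔ ∀ y ∈ J, R x y := by simp [nb]

theorem mem_cn {S : Finset V} {y : V} : y ∈ cn R S ↔ ∀ x ∈ S, R x y := by simp [cn]

theorem sub_nb_iff {J S : Finset V} : S ⊆ nb R J ↔ J ⊆ cn R S :=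
  ⟨fun h _ hy => mem_cn.2 fun _ hx => mem_nb.1 (h hx) _ hy,
    fun h _ hx => mem_nb.2 fun _ hy => mem_cn.1 (h hy) _ hx⟩

theorem nb_insert (J : Finset V) (y : V) : nb R (insert y J) = (nb R J).filter fun x => R x y := by
  ext x
  rw [mem_filter, mem_nb, mem_nb]
  constructor
  · intro h
    exact ⟨fun z hz => h z (mem_insert_of_mem hz), h y (mem_insert_self _ _)⟩
  · rintro ⟨h1, h2⟩ z hz
    rcases mem_insert.1 hz with rfl | hz
    · exact h2
    · exact h1 z hz

theorem cc_insert_le (J : Finset V) (y : V) : cc R (insert y J) ≤ cc R J := by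
  unfold cc
  rw [nb_insert]
  exact_mod_cast card_filter_le _ _

/-- double counting -/
theorem sum_nb_cn (j s : ℕ) (g : Finset V → Finset V → ℝ) :
    ∑ J ∈ powersetCard j univ, ∑ S ∈ powersetCard s (nb R J), g J S =
      ∑ S ∈ powersetCard s univ, ∑ J ∈ powersetCard j (cn R S), g J S := by
  refine sum_comm' fun J S => ?_
  simp only [mem_powersetCard, subset_univ, true_and]
  rw [sub_nb_iff]
  tauto

theorem sum_choose (j s : ℕ) :
    ∑ J ∈ powersetCard j univ, (((nb R J).card.choose s : ℕ) : ℝ) =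
      ∑ S ∈ powersetCard s univ, (((cn R S).card.choose j : ℕ) : ℝ) := by
  have h := sum_nb_cn (R := R) j s fun _ _ => 1
  simpa only [sum_const, card_powersetCard, nsmul_eq_mul, mul_one] using h

theorem sum_desc (j s : ℕ) :
    (j.factorial : ℝ) * ∑ J ∈ powersetCard j univ, ((nb R J).card.descFactorial s : ℝ) =
      (s.factorial : ℝ) * ∑ S ∈ powersetCard s univ, ((cn R S).card.descFactorial j : ℝ) := by
  have h1 : ∀ n m : ℕ, ((n.descFactorial m : ℕ) : ℝ) = (m.factorial : ℝ) * (n.choose m : ℝ) := by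
    intro n m
    exact_mod_cast Nat.descFactorial_eq_factorial_mul_choose n m
  simp only [h1]
  rw [← mul_sum, ← mul_sum, sum_choose]
  ring

/-- every set of `s` elements has at most `τ` common neighbours -/
def Free (R : V → V → Prop) [DecidableRel R] (s τ : ℕ) : Prop :=
  ∀ S : Finset V, S.card = s → (cn R S).card ≤ τ

theorem sum_choose_le {s τ : ℕ} (hF : Free R s τ) (J : Finset V) :
    ∑ y ∈ univ \ J, (((nb R (insert y J)).card.choose s : ℕ) : ℝ) ≤
      ((τ : ℝ) - J.card) * (((nb R J).card.choose s : ℕ) : ℝ) := by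
  have h1 : ∀ y, (((nb R (insert y J)).card.choose s : ℕ) : ℝ) =
      ∑ S ∈ powersetCard s (nb R J), if y ∈ cn R S then 1 else 0 := by
    intro y
    rw [← sum_filter, sum_const, nsmul_eq_mul, mul_one, ← card_powersetCard]
    congr 2
    ext S
    rw [mem_filter, mem_powersetCard, mem_powersetCard, nb_insert, mem_cn]
    constructor
    · rintro ⟨h1, h2⟩
      exact ⟨⟨fun x hx => (mem_filter.1 (h1 hx)).1, h2⟩, fun x hx => (mem_filter.1 (h1 hx)).2⟩
    · rintro ⟨⟨h1, h2⟩, h3⟩
      exact ⟨fun x hx => mem_filter.2 ⟨h1 hx, h3 x hx⟩, h2⟩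
  simp only [h1]
  rw [sum_comm, ← card_powersetCard, mul_comm, ← nsmul_eq_mul, ← sum_const]
  refine sum_le_sum fun S hS => ?_
  rw [mem_powersetCard] at hS
  rw [← sum_filter, sum_const, nsmul_eq_mul, mul_one]
  have h2 : J ⊆ cn R S := sub_nb_iff.1 hS.1
  have h3 : (univ \ J).filter (fun y => y ∈ cn R S) = cn R S \ J := by
    ext y
    simp only [mem_filter, mem_sdiff, mem_univ, true_and]
    tauto
  rw [h3, card_sdiff_of_subset h2, Nat.cast_sub (card_le_card h2)]
  have := hF S hS.2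
  have h4 : ((cn R S).card : ℝ) ≤ τ := by exact_mod_cast this
  linarith

theorem sum_desc_le {s τ : ℕ} (hF : Free R s τ) (J : Finset V) :
    ∑ y ∈ univ \ J, ((nb R (insert y J)).card.descFactorial s : ℝ) ≤
      ((τ : ℝ) - J.card) * ((nb R J).card.descFactorial s : ℝ) := by
  have h1 : ∀ n m : ℕ, ((n.descFactorial m : ℕ) : ℝ) = (m.factorial : ℝ) * (n.choose m : ℝ) := by
    intro n m
    exact_mod_cast Nat.descFactorial_eq_factorial_mul_choose n m
  simp only [h1]
  rw [← mul_sum]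
  have h2 := sum_choose_le hF J
  have h3 : (0 : ℝ) ≤ (s.factorial : ℝ) := Nat.cast_nonneg _
  calc (s.factorial : ℝ) * _ ≤ (s.factorial : ℝ) * _ := mul_le_mul_of_nonneg_left h2 h3
    _ = _ := by ring

/-- few elements have large neighbourhoods inside a large set -/
theorem card_exc {k τ : ℕ} (hF : Free R (k + 1) τ) (I : Finset V) {ε : ℝ} (hε : 0 < ε)
    (hI : 2 * ((k : ℝ) + 1) ^ 2 / ε ≤ cc R I) (Y : Finset V)
    (hY : ∀ y ∈ Y, y ∉ I ∧ ε * cc R I ≤ cc R (insert y I)) :
    (Y.card : ℝ) ≤ 2 * τ / ε ^ (k + 1) := by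
  have hc0 : 0 < cc R I := lt_of_lt_of_le (by positivity) hI
  have h1 : ∑ y ∈ Y, ((nb R (insert y I)).card.descFactorial (k + 1) : ℝ) ≤
      τ * cc R I ^ (k + 1) := by
    calc ∑ y ∈ Y, ((nb R (insert y I)).card.descFactorial (k + 1) : ℝ)
        ≤ ∑ y ∈ univ \ I, ((nb R (insert y I)).card.descFactorial (k + 1) : ℝ) :=
          sum_le_sum_of_subset_of_nonneg
            (fun y hy => mem_sdiff.2 ⟨mem_univ _, (hY y hy).1⟩) fun _ _ _ => Nat.cast_nonneg _
      _ ≤ ((τ : ℝ) - I.card) * ((nb R I).card.descFactorial (k + 1) : ℝ) := sum_desc_le hF I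
      _ ≤ τ * ((nb R I).card.descFactorial (k + 1) : ℝ) := by
          refine mul_le_mul_of_nonneg_right ?_ (Nat.cast_nonneg _)
          have : (0 : ℝ) ≤ I.card := Nat.cast_nonneg _
          linarith
      _ ≤ τ * cc R I ^ (k + 1) := by
          refine mul_le_mul_of_nonneg_left ?_ (Nat.cast_nonneg _)
          unfold cc
          exact_mod_cast Nat.descFactorial_le_pow _ _
  have h2 : ∀ y ∈ Y, (ε * cc R I) ^ (k + 1) / 2 ≤
      ((nb R (insert y I)).card.descFactorial (k + 1) : ℝ) := by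
    intro y hy
    refine le_trans ?_ (desc_ge _ k)
    obtain ⟨-, h3⟩ := hY y hy
    change _ ≤ cc R (insert y I) ^ (k + 1) - ((k : ℝ) + 1) ^ 2 * cc R (insert y I) ^ k
    have h4 : 2 * ((k : ℝ) + 1) ^ 2 ≤ ε * cc R I := by
      rw [div_le_iff₀ hε] at hI
      linarith
    have h5 : (ε * cc R I) ^ (k + 1) ≤ cc R (insert y I) ^ (k + 1) :=
      pow_le_pow_left₀ (by positivity) h3 _
    have h6 : 2 * (((k : ℝ) + 1) ^ 2 * cc R (insert y I) ^ k) ≤ cc R (insert y I) ^ (k + 1) := by
      rw [pow_succ' (cc R (insert y I)) k, ← mul_assoc]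
      exact mul_le_mul_of_nonneg_right (h4.trans h3) (pow_nonneg (cc_nonneg _) _)
    linarith
  have h3 := (sum_le_sum h2).trans h1
  rw [sum_const, nsmul_eq_mul] at h3
  rw [le_div_iff₀ (by positivity)]
  have h4 : 0 < cc R I ^ (k + 1) := pow_pos hc0 _
  rw [mul_pow] at h3
  have h5 : (Y.card : ℝ) * ε ^ (k + 1) * cc R I ^ (k + 1) ≤ 2 * τ * cc R I ^ (k + 1) := by
    nlinarith
  exact le_of_mul_le_mul_right h5 h4

variable (R) in
/-- the number of elements to which `x` is related -/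
noncomputable def dd (x : V) : ℝ := ((univ.filter fun y => R x y).card : ℝ)

/-- the lower bound for the number of copies obtained by adding one more element -/
theorem add_one_ge (k : ℕ) (J B : Finset V) {D b : ℝ} (hD : 0 < D) (u : V → ℝ)
    (hd : ∀ x, D * (1 - u x) ≤ dd R x) (hb : ((J ∪ B).card : ℝ) ≤ b)
    (hn : 0 < Fintype.card V) :
    D ^ (k + 1) / (Fintype.card V : ℝ) ^ k * (cc R J ^ (k + 1) -
        (k + 1) * cc R J ^ k * ((∑ x ∈ nb R J, u x) + b / D * cc R J)) ≤
      ∑ y ∈ univ \ (J ∪ B), cc R (insert y J) ^ (k + 1) := by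
  have hn' : (0 : ℝ) < (Fintype.card V : ℝ) := by exact_mod_cast hn
  set n : ℝ := (Fintype.card V : ℝ)
  set Y := univ \ (J ∪ B) with hY
  set a : ℝ := ∑ y ∈ Y, cc R (insert y J) with ha
  have ha0 : 0 ≤ a := sum_nonneg fun y _ => cc_nonneg _
  have h1 : D * (cc R J - ((∑ x ∈ nb R J, u x) + b / D * cc R J)) ≤ a := by
    have h2 : a = ∑ x ∈ nb R J, ((Y.filter fun y => R x y).card : ℝ) := by
      rw [ha]
      have h3 : ∀ y, cc R (insert y J) = ∑ x ∈ nb R J, if R x y then 1 else 0 := by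
        intro y
        unfold cc
        rw [nb_insert, ← sum_filter, sum_const, nsmul_eq_mul, mul_one]
      simp only [h3]
      rw [sum_comm]
      refine sum_congr rfl fun x _ => ?_
      rw [← sum_filter, sum_const, nsmul_eq_mul, mul_one]
    have h4 : ∀ x ∈ nb R J, D * (1 - u x) - b ≤ ((Y.filter fun y => R x y).card : ℝ) := by
      intro x _
      have h5 : univ.filter (fun y => R x y) ⊆ (Y.filter fun y => R x y) ∪ (J ∪ B) := by
        intro y hy
        rw [mem_filter] at hy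
        by_cases h : y ∈ J ∪ B
        · exact mem_union_right _ h
        · exact mem_union_left _ (mem_filter.2 ⟨mem_sdiff.2 ⟨mem_univ _, h⟩, hy.2⟩)
      have h6 := (card_le_card h5).trans (card_union_le _ _)
      have h7 : dd R x ≤ ((Y.filter fun y => R x y).card : ℝ) + ((J ∪ B).card : ℝ) := by
        unfold dd
        exact_mod_cast h6
      have := hd x
      linarith
    have h5 := sum_le_sum h4
    rw [← h2] at h5
    refine le_trans (le_of_eq ?_) h5
    rw [sum_sub_distrib, sum_const, nsmul_eq_mul, ← mul_sum, sum_sub_distrib, sum_const,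
      nsmul_eq_mul, mul_one]
    unfold cc
    field_simp
    ring
  have h2 : a ^ (k + 1) / n ^ k ≤ ∑ y ∈ Y, cc R (insert y J) ^ (k + 1) := by
    rcases Y.eq_empty_or_nonempty with hY0 | hY0
    · rw [ha, hY0]
      simp
    have h3 := pow_sum_div_card_le_sum_pow (s := Y) (f := fun y => cc R (insert y J))
      (fun y _ => cc_nonneg _) k
    refine le_trans ?_ h3
    rw [← ha]
    refine div_le_div_of_nonneg_left (pow_nonneg ha0 _) ?_ ?_
    · have : (0 : ℝ) < Y.card := by exact_mod_cast hY0.card_pos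
      positivity
    · refine pow_le_pow_left₀ (Nat.cast_nonneg _) ?_ _
      show (Y.card : ℝ) ≤ (Fintype.card V : ℝ)
      exact_mod_cast card_le_univ _
  refine le_trans ?_ h2
  have h3 := tangent' (c := cc R J) (cc_nonneg J) (s := k + 1) (by omega)
    (w := a / D) (by positivity) (z := cc R J - ((∑ x ∈ nb R J, u x) + b / D * cc R J))
    (by rw [le_div_iff₀ hD]; linarith)
  rw [Nat.add_sub_cancel, sub_sub_cancel, Nat.cast_succ] at h3
  have h4 : 0 ≤ D ^ (k + 1) / n ^ k := by positivity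
  refine (mul_le_mul_of_nonneg_left h3 h4).trans (le_of_eq ?_)
  rw [div_pow]
  field_simp

end Pool.Agent.H94.EX
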