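import Pool.Agent.H94.EX.Graph

/-!
The inequalities between the numbers of copies of complete bipartite graphs.
-/

set_option autoImplicit false

namespace Pool.Agent.H94.EX

open Finset

variable {V : Type} [Fintype V] [DecidableEq V] (R : V → V → Prop) [DecidableRel R]

/-- normalised sum over the sets with `j` elements -/
noncomputable def nrm (V : Type) [Fintype V] [DecidableEq V] (k j : ℕ) (f : Finset V → ℝ) : ℝ :=
  (j.factorial : ℝ) * (∑ J ∈ powersetCard j univ, f J) / (Fintype.card V : ℝ) ^ (k + 1)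

noncomputable def KK (k j : ℕ) : ℝ := nrm V k j fun J => cc R J ^ (k + 1)

noncomputable def kk (k j : ℕ) : ℝ :=
  nrm V k j fun J => ((nb R J).card.descFactorial (k + 1) : ℝ)

noncomputable def Er (k j : ℕ) : ℝ := nrm V k j fun J => cc R J ^ k

noncomputable def Aj (u : V → ℝ) (k j : ℕ) : ℝ :=
  nrm V k j fun J => cc R J ^ k * ∑ x ∈ nb R J, u x

variable {R}

theorem nrm_mono {k j : ℕ} {f g : Finset V → ℝ} (h : ∀ J : Finset V, J.card = j → f J ≤ g J) :
    nrm V k j f ≤ nrm V k j g := by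
  unfold nrm
  refine div_le_div_of_nonneg_right ?_ (pow_nonneg (Nat.cast_nonneg _) _)
  refine mul_le_mul_of_nonneg_left ?_ (Nat.cast_nonneg _)
  exact sum_le_sum fun J hJ => h J (mem_powersetCard.1 hJ).2

theorem nrm_nonneg {k j : ℕ} {f : Finset V → ℝ} (h : ∀ J : Finset V, 0 ≤ f J) :
    0 ≤ nrm V k j f := by
  unfold nrm
  exact div_nonneg (mul_nonneg (Nat.cast_nonneg _) (sum_nonneg fun J _ => h J))
    (pow_nonneg (Nat.cast_nonneg _) _)

theorem nrm_add (k j : ℕ) (f g : Finset V → ℝ) :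
    nrm V k j (fun J => f J + g J) = nrm V k j f + nrm V k j g := by
  unfold nrm
  rw [sum_add_distrib]
  ring

theorem nrm_mul (k j : ℕ) (a : ℝ) (f : Finset V → ℝ) :
    nrm V k j (fun J => a * f J) = a * nrm V k j f := by
  unfold nrm
  rw [← mul_sum]
  ring

theorem nrm_const_le (k j : ℕ) {a : ℝ} (ha : 0 ≤ a) :
    nrm V k j (fun _ => a) ≤ a * (Fintype.card V : ℝ) ^ j / (Fintype.card V : ℝ) ^ (k + 1) := by
  unfold nrm
  refine div_le_div_of_nonneg_right ?_ (pow_nonneg (Nat.cast_nonneg _) _)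
  rw [sum_const, nsmul_eq_mul, card_powersetCard, card_univ]
  have h : ((j.factorial * (Fintype.card V).choose j : ℕ) : ℝ) ≤ (Fintype.card V : ℝ) ^ j := by
    rw [← Nat.descFactorial_eq_factorial_mul_choose]
    exact_mod_cast Nat.descFactorial_le_pow _ _
  push_cast at h
  calc (j.factorial : ℝ) * (((Fintype.card V).choose j : ℝ) * a)
      = a * ((j.factorial : ℝ) * ((Fintype.card V).choose j : ℝ)) := by ring
    _ ≤ a * (Fintype.card V : ℝ) ^ j := mul_le_mul_of_nonneg_left h ha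

/-- adding one element -/
theorem nrm_succ (k j : ℕ) (f : Finset V → ℝ) :
    nrm V k (j + 1) f = nrm V k j fun J => ∑ y ∈ univ \ J, f (insert y J) := by
  unfold nrm
  rw [sum_insert_powerset', Nat.factorial_succ]
  push_cast
  ring

theorem kk_le_KK (k j : ℕ) : kk R k j ≤ KK R k j := by
  refine nrm_mono fun J _ => ?_
  unfold cc
  exact_mod_cast Nat.descFactorial_le_pow _ _

theorem KK_le (k j : ℕ) : KK R k j ≤ kk R k j + ((k : ℝ) + 1) ^ 2 * Er R k j := by
  unfold KK kk Er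
  rw [← nrm_mul, ← nrm_add]
  refine nrm_mono fun J _ => ?_
  have := desc_ge (nb R J).card k
  unfold cc
  linarith

theorem Er_le (k j : ℕ) {l : ℝ} (hl : 0 < l) : Er R k j ≤
    KK R k j / l + l ^ k * (Fintype.card V : ℝ) ^ j / (Fintype.card V : ℝ) ^ (k + 1) := by
  have h1 : Er R k j ≤ nrm V k j fun J => l⁻¹ * cc R J ^ (k + 1) + l ^ k := by
    refine nrm_mono fun J _ => ?_
    by_cases h : l ≤ cc R J
    · have h1 : cc R J ^ k ≤ l⁻¹ * cc R J ^ (k + 1) := by
        rw [pow_succ, inv_mul_eq_div, le_div_iff₀ hl]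
        exact mul_le_mul_of_nonneg_left h (pow_nonneg (cc_nonneg _) _)
      have h2 : 0 ≤ l ^ k := by positivity
      linarith
    · push Not at h
      have h1 : cc R J ^ k ≤ l ^ k := pow_le_pow_left₀ (cc_nonneg _) h.le _
      have h2 : 0 ≤ l⁻¹ * cc R J ^ (k + 1) :=
        mul_nonneg (inv_nonneg.2 hl.le) (pow_nonneg (cc_nonneg _) _)
      linarith
  rw [nrm_add, nrm_mul] at h1
  have h2 := nrm_const_le (V := V) k j (a := l ^ k) (by positivity)
  unfold KK
  rw [div_eq_inv_mul]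
  linarith

theorem kk_succ_le {k τ : ℕ} (hF : Free R (k + 1) τ) (j : ℕ) :
    kk R k (j + 1) ≤ ((τ : ℝ) - j) * kk R k j := by
  unfold kk
  rw [nrm_succ, ← nrm_mul]
  refine nrm_mono fun J hJ => ?_
  have := sum_desc_le hF J
  rw [hJ] at this
  exact this

theorem kk_eq (k j : ℕ) : kk R k j = ((k + 1).factorial : ℝ) *
    (∑ S ∈ powersetCard (k + 1) univ, ((cn R S).card.descFactorial j : ℝ)) /
      (Fintype.card V : ℝ) ^ (k + 1) := by
  unfold kk nrm
  rw [sum_desc]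

theorem kk_le {k τ : ℕ} (hF : Free R (k + 1) τ) (hn : 0 < Fintype.card V) (j : ℕ) :
    kk R k j ≤ (τ : ℝ) ^ j := by
  rw [kk_eq]
  have h1 : ∑ S ∈ powersetCard (k + 1) univ, ((cn R S).card.descFactorial j : ℝ) ≤
      ∑ S ∈ powersetCard (k + 1) (univ : Finset V), (τ : ℝ) ^ j := by
    refine sum_le_sum fun S hS => ?_
    have h2 := hF S (mem_powersetCard.1 hS).2
    have h3 : (cn R S).card.descFactorial j ≤ τ ^ j :=
      (Nat.descFactorial_le_pow _ _).trans (Nat.pow_le_pow_left h2 j)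
    exact_mod_cast h3
  have h2 := nrm_const_le (V := V) k (k + 1) (a := (τ : ℝ) ^ j) (by positivity)
  have hn' : (0 : ℝ) < (Fintype.card V : ℝ) := by exact_mod_cast hn
  rw [mul_div_assoc, div_self (pow_pos hn' _).ne', mul_one] at h2
  refine le_trans ?_ h2
  unfold nrm
  refine div_le_div_of_nonneg_right ?_ (pow_nonneg (Nat.cast_nonneg _) _)
  exact mul_le_mul_of_nonneg_left h1 (Nat.cast_nonneg _)

/-- the sum of `u` over a common neighbourhood -/
theorem weight_le (N : Finset V) (u : V → ℝ) (hu0 : ∀ x, 0 ≤ u x) (hu1 : ∀ x, u x ≤ 1) (k : ℕ) :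
    (N.card : ℝ) ^ k * ∑ x ∈ N, u x ≤
      (k.factorial : ℝ) * ∑ S ∈ powersetCard (k + 1) N, ∑ x ∈ S, u x +
        ((k : ℝ) + 1) ^ 2 * (N.card : ℝ) ^ k := by
  have h1 : ((N.card.choose k : ℕ) : ℝ) * ((∑ x ∈ N, u x) - k) ≤
      ∑ S ∈ powersetCard (k + 1) N, ∑ x ∈ S, u x := by
    rw [← sum_insert_powerset N k fun _ x => u x, ← card_powersetCard, ← nsmul_eq_mul, ← sum_const]
    refine sum_le_sum fun A hA => ?_
    rw [mem_powersetCard] at hA
    have h2 := sum_sdiff (f := u) hA.1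
    have h3 : ∑ x ∈ A, u x ≤ k := by
      calc ∑ x ∈ A, u x ≤ ∑ x ∈ A, (1 : ℝ) := sum_le_sum fun x _ => hu1 x
        _ = k := by rw [sum_const, nsmul_eq_mul, mul_one, hA.2]
    linarith
  set U : ℝ := ∑ x ∈ N, u x with hU
  set W : ℝ := ∑ S ∈ powersetCard (k + 1) N, ∑ x ∈ S, u x with hW
  have hU0 : 0 ≤ U := sum_nonneg fun x _ => hu0 x
  have hUc : U ≤ N.card := by
    calc U ≤ ∑ x ∈ N, (1 : ℝ) := sum_le_sum fun x _ => hu1 x
      _ = N.card := by rw [sum_const, nsmul_eq_mul, mul_one]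
  have h2 : (N.card.descFactorial k : ℝ) * (U - k) ≤ (k.factorial : ℝ) * W := by
    have : ((N.card.descFactorial k : ℕ) : ℝ) = (k.factorial : ℝ) * (N.card.choose k : ℝ) := by
      exact_mod_cast Nat.descFactorial_eq_factorial_mul_choose _ _
    rw [this, mul_assoc]
    exact mul_le_mul_of_nonneg_left h1 (Nat.cast_nonneg _)
  have h3 : (N.card.descFactorial k : ℝ) ≤ (N.card : ℝ) ^ k := by
    exact_mod_cast Nat.descFactorial_le_pow _ _
  have h4 := desc_mul N.card k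
  have h5 : ((N.card : ℝ) ^ k - (N.card.descFactorial k : ℝ)) * U ≤
      (k : ℝ) ^ 2 * (N.card : ℝ) ^ k := by
    refine le_trans ?_ h4
    rw [mul_comm (N.card : ℝ)]
    exact mul_le_mul_of_nonneg_left hUc (by linarith)
  have h6 : (N.card.descFactorial k : ℝ) * k ≤ (N.card : ℝ) ^ k * k :=
    mul_le_mul_of_nonneg_right h3 (Nat.cast_nonneg _)
  have h7 : 0 ≤ (N.card : ℝ) ^ k := pow_nonneg (Nat.cast_nonneg _) _
  have hk : (0 : ℝ) ≤ k := Nat.cast_nonneg _
  nlinarith [mul_nonneg hk h7]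

theorem Aj_le {k τ : ℕ} (hF : Free R (k + 1) τ) (hn : 0 < Fintype.card V) (j : ℕ)
    (u : V → ℝ) (hu0 : ∀ x, 0 ≤ u x) (hu1 : ∀ x, u x ≤ 1) :
    Aj R u k j ≤ (τ : ℝ) ^ j * ((∑ x, u x) / (Fintype.card V : ℝ)) +
      ((k : ℝ) + 1) ^ 2 * Er R k j := by
  have hn' : (0 : ℝ) < (Fintype.card V : ℝ) := by exact_mod_cast hn
  have h1 : Aj R u k j ≤ nrm V k j fun J =>
      (k.factorial : ℝ) * (∑ S ∈ powersetCard (k + 1) (nb R J), ∑ x ∈ S, u x) +
        ((k : ℝ) + 1) ^ 2 * cc R J ^ k := nrm_mono fun J _ => weight_le (nb R J) u hu0 hu1 k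
  rw [nrm_add, nrm_mul, nrm_mul] at h1
  refine h1.trans (add_le_add_left ?_ _)
  unfold nrm
  rw [sum_nb_cn (R := R) j (k + 1) fun _ S => ∑ x ∈ S, u x]
  have h2 : (j.factorial : ℝ) * ∑ S ∈ powersetCard (k + 1) univ,
      ∑ J ∈ powersetCard j (cn R S), ∑ x ∈ S, u x ≤
      (τ : ℝ) ^ j * ∑ S ∈ powersetCard (k + 1) (univ : Finset V), ∑ x ∈ S, u x := by
    rw [mul_sum, mul_sum]
    refine sum_le_sum fun S hS => ?_
    rw [sum_const, nsmul_eq_mul, card_powersetCard, ← mul_assoc]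
    refine mul_le_mul_of_nonneg_right ?_ (sum_nonneg fun x _ => hu0 x)
    have h2 := hF S (mem_powersetCard.1 hS).2
    have h3 : j.factorial * (cn R S).card.choose j ≤ τ ^ j := by
      rw [← Nat.descFactorial_eq_factorial_mul_choose]
      exact (Nat.descFactorial_le_pow _ _).trans (Nat.pow_le_pow_left h2 j)
    exact_mod_cast h3
  have h3 : (k.factorial : ℝ) * ∑ S ∈ powersetCard (k + 1) (univ : Finset V), ∑ x ∈ S, u x ≤
      (Fintype.card V : ℝ) ^ k * ∑ x, u x := by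
    rw [← sum_insert_powerset univ k fun _ x => u x]
    have h4 : ∑ A ∈ powersetCard k (univ : Finset V), ∑ y ∈ univ \ A, u y ≤
        ((Fintype.card V).choose k : ℝ) * ∑ x, u x := by
      rw [← card_univ, ← card_powersetCard, ← nsmul_eq_mul, ← sum_const]
      refine sum_le_sum fun A _ => ?_
      exact sum_le_sum_of_subset_of_nonneg (subset_univ _) fun x _ _ => hu0 x
    have h5 : ((k.factorial * (Fintype.card V).choose k : ℕ) : ℝ) ≤
        (Fintype.card V : ℝ) ^ k := by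
      rw [← Nat.descFactorial_eq_factorial_mul_choose]
      exact_mod_cast Nat.descFactorial_le_pow _ _
    push_cast at h5
    have h6 : 0 ≤ ∑ x, u x := sum_nonneg fun x _ => hu0 x
    calc _ ≤ (k.factorial : ℝ) * (((Fintype.card V).choose k : ℝ) * ∑ x, u x) :=
          mul_le_mul_of_nonneg_left h4 (Nat.cast_nonneg _)
      _ = ((k.factorial : ℝ) * ((Fintype.card V).choose k : ℝ)) * ∑ x, u x := by ring
      _ ≤ _ := mul_le_mul_of_nonneg_right h5 h6
  have h4 : (k.factorial : ℝ) * ((j.factorial : ℝ) * ∑ S ∈ powersetCard (k + 1) univ,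
      ∑ J ∈ powersetCard j (cn R S), ∑ x ∈ S, u x) ≤
      (τ : ℝ) ^ j * ((Fintype.card V : ℝ) ^ k * ∑ x, u x) := by
    calc _ ≤ (k.factorial : ℝ) * ((τ : ℝ) ^ j *
          ∑ S ∈ powersetCard (k + 1) (univ : Finset V), ∑ x ∈ S, u x) :=
          mul_le_mul_of_nonneg_left h2 (Nat.cast_nonneg _)
      _ = (τ : ℝ) ^ j * ((k.factorial : ℝ) *
          ∑ S ∈ powersetCard (k + 1) (univ : Finset V), ∑ x ∈ S, u x) := by ring
      _ ≤ _ := mul_le_mul_of_nonneg_left h3 (by positivity)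
  rw [← mul_div_assoc, div_le_iff₀ (pow_pos hn' _)]
  refine h4.trans (le_of_eq ?_)
  rw [pow_succ]
  field_simp

end Pool.Agent.H94.EX
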