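import Pool.Agent.H94.EX.Lim
import Pool.Agent.H94.RR.Fin

/-!
From factorial moments to laws, and from relations to graphs.
-/

set_option autoImplicit false

namespace Pool.Agent.H94.EX

open Finset Filter Topology

/-- a law on `0, ..., m` is determined by its factorial moments -/
theorem law_of_moments {ι : Type} {F : Filter ι} (m : ℕ) (P : ℕ → ι → ℝ) (Q : ℕ → ℝ)
    (h : ∀ j ≤ m, Tendsto (fun i => ∑ a ∈ range (m + 1), (a.descFactorial j : ℝ) * P a i) F
      (𝓝 (∑ a ∈ range (m + 1), (a.descFactorial j : ℝ) * Q a))) :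
    ∀ a ≤ m, Tendsto (P a) F (𝓝 (Q a)) := by
  have key : ∀ b a, a + b = m → ∀ a', a ≤ a' → a' ≤ m → Tendsto (P a') F (𝓝 (Q a')) := by
    intro b
    induction b with
    | zero =>
      intro a hab a' h1 h2
      have ha' : a' = m := by omega
      subst ha'
      have h3 := h a' le_rfl
      rw [sum_range_succ, sum_eq_zero (fun x hx => by
        rw [Nat.descFactorial_eq_zero_iff_lt.2 (mem_range.1 hx), Nat.cast_zero, zero_mul]),
        zero_add] at h3
      have h4 : (fun i => ∑ a ∈ range (a' + 1), (a.descFactorial a' : ℝ) * P a i) =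
          fun i => (a'.descFactorial a' : ℝ) * P a' i := by
        funext i
        rw [sum_range_succ, sum_eq_zero (fun x hx => by
          rw [Nat.descFactorial_eq_zero_iff_lt.2 (mem_range.1 hx), Nat.cast_zero, zero_mul]),
          zero_add]
      rw [h4] at h3
      have h5 : ((a'.descFactorial a' : ℕ) : ℝ) ≠ 0 := by
        rw [Nat.descFactorial_self]
        exact_mod_cast a'.factorial_ne_zero
      have h6 := h3.const_mul ((a'.descFactorial a' : ℕ) : ℝ)⁻¹
      simpa only [← mul_assoc, inv_mul_cancel₀ h5, one_mul] using h6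
    | succ b ih =>
      intro a hab a' h1 h2
      rcases Nat.eq_or_lt_of_le h1 with rfl | h1
      · have h3 := h a (by omega)
        have h4 : Tendsto (fun i => ∑ x ∈ (range (m + 1)).erase a,
            (x.descFactorial a : ℝ) * P x i) F
            (𝓝 (∑ x ∈ (range (m + 1)).erase a, (x.descFactorial a : ℝ) * Q x)) := by
          refine tendsto_finsetSum _ fun x hx => ?_
          rw [mem_erase, mem_range] at hx
          rcases lt_or_gt_of_ne hx.1 with h5 | h5
          · rw [Nat.descFactorial_eq_zero_iff_lt.2 h5]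
            simp only [Nat.cast_zero, zero_mul]
            exact tendsto_const_nhds
          · exact (ih (a + 1) (by omega) x (by omega) (by omega)).const_mul _
        have h5 := h3.sub h4
        have ham : a ∈ range (m + 1) := mem_range.2 (by omega)
        have h6 : ∀ f : ℕ → ℝ, ∑ x ∈ range (m + 1), f x - ∑ x ∈ (range (m + 1)).erase a, f x =
            f a := by
          intro f
          rw [← add_sum_erase _ _ ham]
          ring
        simp only [h6] at h5
        have h7 : ((a.descFactorial a : ℕ) : ℝ) ≠ 0 := by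
          rw [Nat.descFactorial_self]
          exact_mod_cast a.factorial_ne_zero
        have h8 := h5.const_mul ((a.descFactorial a : ℕ) : ℝ)⁻¹
        simpa only [← mul_assoc, inv_mul_cancel₀ h7, one_mul] using h8
      · exact ih (a + 1) (by omega) a' (by omega) h2
  intro a ha
  exact key (m - a) a (by omega) a le_rfl ha

/-! ### fixed points of permutations -/

/-- the number of fixed points -/
def fix {m : ℕ} (σ : Equiv.Perm (Fin m)) : ℕ := (univ.filter fun x => σ x = x).card

theorem fix_le {m : ℕ} (σ : Equiv.Perm (Fin m)) : fix σ ≤ m := by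
  unfold fix
  refine (card_le_univ _).trans (le_of_eq (Fintype.card_fin m))

theorem card_fixing {m : ℕ} (J : Finset (Fin m)) :
    (univ.filter fun σ : Equiv.Perm (Fin m) => ∀ x ∈ J, σ x = x).card =
      (m - J.card).factorial := by
  have e := Equiv.Perm.subtypeEquivSubtypePerm fun a : Fin m => a ∉ J
  have h1 : Fintype.card {f : Equiv.Perm (Fin m) // ∀ a, ¬ a ∉ J → f a = a} =
      (m - J.card).factorial := by
    rw [← Fintype.card_congr e, Fintype.card_perm]
    congr 1
    rw [Fintype.card_subtype_compl, Fintype.card_fin, Fintype.card_coe]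
  rw [← h1, Fintype.card_subtype]
  congr 1
  ext σ
  simp

theorem sum_fix {m j : ℕ} (hj : j ≤ m) :
    ∑ σ : Equiv.Perm (Fin m), (fix σ).descFactorial j = m.factorial := by
  have h1 : ∀ σ : Equiv.Perm (Fin m), (fix σ).choose j =
      ∑ J ∈ powersetCard j (univ : Finset (Fin m)), if ∀ x ∈ J, σ x = x then 1 else 0 := by
    intro σ
    rw [← sum_filter, sum_const, smul_eq_mul, mul_one, fix, ← card_powersetCard]
    congr 1
    ext J
    rw [mem_filter, mem_powersetCard, mem_powersetCard]
    constructor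
    · rintro ⟨h1, h2⟩
      exact ⟨⟨subset_univ _, h2⟩, fun x hx => (mem_filter.1 (h1 hx)).2⟩
    · rintro ⟨⟨-, h1⟩, h2⟩
      exact ⟨fun x hx => mem_filter.2 ⟨mem_univ _, h2 x hx⟩, h1⟩
  simp only [Nat.descFactorial_eq_factorial_mul_choose]
  rw [← mul_sum]
  simp only [h1]
  rw [sum_comm]
  have h2 : ∀ J ∈ powersetCard j (univ : Finset (Fin m)),
      ∑ σ : Equiv.Perm (Fin m), (if ∀ x ∈ J, σ x = x then 1 else 0) = (m - j).factorial := by
    intro J hJ
    rw [← sum_filter, sum_const, smul_eq_mul, mul_one, card_fixing, (mem_powersetCard.1 hJ).2]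
  rw [sum_congr rfl h2, sum_const, smul_eq_mul, card_powersetCard, card_univ, Fintype.card_fin,
    ← mul_assoc, mul_comm j.factorial, Nat.choose_mul_factorial_mul_factorial hj]

/-- the proportion of the permutations with `a` fixed points -/
noncomputable def permLaw (m a : ℕ) : ℝ :=
  ((univ.filter fun σ : Equiv.Perm (Fin m) => fix σ = a).card : ℝ) / (m.factorial : ℝ)

theorem permLaw_moment {m j : ℕ} (hj : j ≤ m) :
    ∑ a ∈ range (m + 1), (a.descFactorial j : ℝ) * permLaw m a = 1 := by
  have hm : ((m.factorial : ℕ) : ℝ) ≠ 0 := by exact_mod_cast m.factorial_ne_zero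
  have h1 : ∑ a ∈ range (m + 1), (a.descFactorial j : ℝ) *
      ((univ.filter fun σ : Equiv.Perm (Fin m) => fix σ = a).card : ℝ) = (m.factorial : ℝ) := by
    rw [← sum_fix hj]
    push_cast
    rw [← sum_fiberwise_of_maps_to (s := univ) (t := range (m + 1)) (g := fix)
      (fun σ _ => mem_range.2 (Nat.lt_succ_of_le (fix_le σ)))]
    refine sum_congr rfl fun a _ => ?_
    rw [sum_congr rfl (g := fun _ => (a.descFactorial j : ℝ)) fun σ hσ => by
      rw [(mem_filter.1 hσ).2], sum_const, nsmul_eq_mul, mul_comm]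
  unfold permLaw
  simp only [← mul_div_assoc]
  rw [← sum_div, h1, div_self hm]

/-! ### relations and graphs -/

/-- the proportion of the sets with `s` elements with exactly `a` common neighbours -/
noncomputable def plaw {V : Type} [Fintype V] [DecidableEq V] (R : V → V → Prop) [DecidableRel R]
    (s a : ℕ) : ℝ :=
  (((powersetCard s univ).filter fun S => (cn R S).card = a).card : ℝ) /
    ((Fintype.card V).choose s : ℝ)

theorem plaw_nonneg {V : Type} [Fintype V] [DecidableEq V] (R : V → V → Prop) [DecidableRel R]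
    (s a : ℕ) : 0 ≤ plaw R s a := div_nonneg (Nat.cast_nonneg _) (Nat.cast_nonneg _)

theorem kk_law {V : Type} [Fintype V] [DecidableEq V] {R : V → V → Prop} [DecidableRel R]
    {k τ : ℕ} (hF : Free R (k + 1) τ) (hn : k + 1 ≤ Fintype.card V) (j : ℕ) :
    ∑ a ∈ range (τ + 1), (a.descFactorial j : ℝ) * plaw R (k + 1) a =
      kk R k j / kk R k 0 := by
  have hC : (0 : ℝ) < ((Fintype.card V).choose (k + 1) : ℝ) := by
    exact_mod_cast Nat.choose_pos hn
  have hn' : (0 : ℝ) < (Fintype.card V : ℝ) := by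
    exact_mod_cast lt_of_lt_of_le (Nat.succ_pos k) hn
  have hf : (0 : ℝ) < ((k + 1).factorial : ℝ) := by exact_mod_cast Nat.factorial_pos _
  rw [kk_eq, kk_eq]
  simp only [Nat.descFactorial_zero, Nat.cast_one, sum_const, card_powersetCard, card_univ,
    nsmul_eq_mul, mul_one]
  have h1 : ∑ S ∈ powersetCard (k + 1) univ, ((cn R S).card.descFactorial j : ℝ) =
      ∑ a ∈ range (τ + 1), (a.descFactorial j : ℝ) *
        (((powersetCard (k + 1) univ).filter fun S => (cn R S).card = a).card : ℝ) := by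
    rw [← sum_fiberwise_of_maps_to (s := powersetCard (k + 1) univ) (t := range (τ + 1))
      (g := fun S => (cn R S).card)
      (fun S hS => mem_range.2 (Nat.lt_succ_of_le (hF S (mem_powersetCard.1 hS).2)))]
    refine sum_congr rfl fun a _ => ?_
    rw [sum_congr rfl (g := fun _ => (a.descFactorial j : ℝ)) fun S hS => by
      rw [(mem_filter.1 hS).2], sum_const, nsmul_eq_mul, mul_comm]
  rw [h1]
  unfold plaw
  simp only [← mul_div_assoc]
  rw [← sum_div]
  field_simp

section

variable {ι : Type} {F : Filter ι} {l τ : ℕ} {v : ι → ℕ}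
  {R : ∀ i, Fin (v i) → Fin (v i) → Prop} [∀ i, DecidableRel (R i)] {D : ι → ℝ}

/-- the limits of the factorial moments of the number of common neighbours -/
theorem moments (hv : Tendsto v F atTop) (hl : 1 ≤ l) (hτ : l < τ)
    (hF : ∀ i, Free (R i) (l + 2) τ) (hD0 : ∀ᶠ i in F, 0 < D i)
    (hD : ∀ᶠ i in F, ((τ : ℝ) - l) * (v i : ℝ) ^ (l + 1) = D i ^ (l + 2))
    (hρ : Tendsto (fun i => (∑ x, dd (R i) x) / ((v i : ℝ) * D i)) F (𝓝 1)) (j : ℕ)
    (hj : j ≤ l + 1) :
    Tendsto (fun i => ∑ a ∈ range (τ + 1), (a.descFactorial j : ℝ) * plaw (R i) (l + 2) a) F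
      (𝓝 (((τ : ℝ) - l) ^ j)) := by
  have h1 := lim_main hv hl hτ hF hD0 hD hρ j hj
  have h2 := lim_main hv hl hτ hF hD0 hD hρ 0 (by omega)
  have h3 := h1.div h2 (by rw [pow_zero]; exact one_ne_zero)
  rw [pow_zero, div_one] at h3
  refine h3.congr' ?_
  filter_upwards [hv.eventually_ge_atTop (l + 2)] with i hi
  exact (kk_law (hF i) (by rw [Fintype.card_fin]; exact hi) j).symm

/-- the intermediate values do not occur -/
theorem middle (hv : Tendsto v F atTop) (hl : 1 ≤ l) (hτ : l < τ)
    (hF : ∀ i, Free (R i) (l + 2) τ) (hD0 : ∀ᶠ i in F, 0 < D i)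
    (hD : ∀ᶠ i in F, ((τ : ℝ) - l) * (v i : ℝ) ^ (l + 1) = D i ^ (l + 2))
    (hρ : Tendsto (fun i => (∑ x, dd (R i) x) / ((v i : ℝ) * D i)) F (𝓝 1)) (a : ℕ)
    (ha : l ≤ a) (ha' : a < τ) : Tendsto (fun i => plaw (R i) (l + 2) a) F (𝓝 0) := by
  have h1 := moments hv hl hτ hF hD0 hD hρ l (by omega)
  have h2 := moments hv hl hτ hF hD0 hD hρ (l + 1) le_rfl
  have h3 := (h1.const_mul ((τ : ℝ) - l)).sub h2
  rw [← pow_succ', sub_self] at h3
  have hdesc : ∀ b : ℕ, ((b.descFactorial (l + 1) : ℕ) : ℝ) =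
      ((b : ℝ) - l) * (b.descFactorial l : ℝ) := by
    intro b
    rw [Nat.descFactorial_succ, Nat.cast_mul]
    rcases le_or_gt l b with h | h
    · rw [Nat.cast_sub h]
    · rw [Nat.descFactorial_eq_zero_iff_lt.2 h]
      simp
  have h4 : ∀ i, ((τ : ℝ) - l) * ∑ b ∈ range (τ + 1), (b.descFactorial l : ℝ) *
      plaw (R i) (l + 2) b - ∑ b ∈ range (τ + 1), (b.descFactorial (l + 1) : ℝ) *
        plaw (R i) (l + 2) b =
      ∑ b ∈ range (τ + 1), ((τ : ℝ) - b) * (b.descFactorial l : ℝ) * plaw (R i) (l + 2) b := by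
    intro i
    rw [mul_sum, ← sum_sub_distrib]
    refine sum_congr rfl fun b _ => ?_
    rw [hdesc]
    ring
  simp only [h4] at h3
  set c : ℝ := ((τ : ℝ) - a) * (a.descFactorial l : ℝ) with hc
  have hc0 : 0 < c := by
    have h5 : (0 : ℝ) < (a.descFactorial l : ℝ) := by
      exact_mod_cast Nat.pos_of_ne_zero fun h => by
        rw [Nat.descFactorial_eq_zero_iff_lt] at h
        omega
    have h6 : (a : ℝ) < τ := by exact_mod_cast ha'
    rw [hc]
    exact mul_pos (by linarith) h5
  have h5 := h3.const_mul c⁻¹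
  rw [mul_zero] at h5
  refine tendsto_of_tendsto_of_tendsto_of_le_of_le tendsto_const_nhds h5
    (fun i => plaw_nonneg _ _ _) fun i => ?_
  show _ ≤ c⁻¹ * _
  rw [le_inv_mul_iff₀ hc0]
  refine single_le_sum (f := fun b : ℕ => ((τ : ℝ) - b) * (b.descFactorial l : ℝ) *
    plaw (R i) (l + 2) b) (fun b hb => ?_) (mem_range.2 (by omega))
  have h6 : (b : ℝ) ≤ τ := by exact_mod_cast Nat.lt_succ_iff.1 (mem_range.1 hb)
  exact mul_nonneg (mul_nonneg (by linarith) (Nat.cast_nonneg _)) (plaw_nonneg _ _ _)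

/-- the proportion of the largest value -/
theorem top_value (hv : Tendsto v F atTop) (hl : 1 ≤ l) (hτ : l < τ)
    (hF : ∀ i, Free (R i) (l + 2) τ) (hD0 : ∀ᶠ i in F, 0 < D i)
    (hD : ∀ᶠ i in F, ((τ : ℝ) - l) * (v i : ℝ) ^ (l + 1) = D i ^ (l + 2))
    (hρ : Tendsto (fun i => (∑ x, dd (R i) x) / ((v i : ℝ) * D i)) F (𝓝 1)) :
    Tendsto (fun i => plaw (R i) (l + 2) τ) F
      (𝓝 (((τ : ℝ) - l) ^ (l + 1) / (τ.descFactorial (l + 1) : ℝ))) := by
  have h2 := moments hv hl hτ hF hD0 hD hρ (l + 1) le_rfl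
  have h3 : Tendsto (fun i => ∑ a ∈ range τ, (a.descFactorial (l + 1) : ℝ) *
      plaw (R i) (l + 2) a) F (𝓝 0) := by
    have h4 : (0 : ℝ) = ∑ a ∈ range τ, 0 := by simp
    rw [h4]
    refine tendsto_finsetSum _ fun a ha => ?_
    rcases lt_or_ge a (l + 1) with h5 | h5
    · rw [Nat.descFactorial_eq_zero_iff_lt.2 h5]
      simp only [Nat.cast_zero, zero_mul]
      exact tendsto_const_nhds
    · have h6 := (middle hv hl hτ hF hD0 hD hρ a (by omega) (mem_range.1 ha)).const_mul
        (a.descFactorial (l + 1) : ℝ)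
      rwa [mul_zero] at h6
  have h4 := h2.sub h3
  rw [sub_zero] at h4
  have h5 : ((τ.descFactorial (l + 1) : ℕ) : ℝ) ≠ 0 := by
    intro h
    have : τ.descFactorial (l + 1) = 0 := by exact_mod_cast h
    rw [Nat.descFactorial_eq_zero_iff_lt] at this
    omega
  have h6 := h4.const_mul (τ.descFactorial (l + 1) : ℝ)⁻¹
  rw [inv_mul_eq_div] at h6
  refine h6.congr fun i => ?_
  rw [sum_range_succ, add_sub_cancel_left, ← mul_assoc, inv_mul_cancel₀ h5, one_mul]

end

end Pool.Agent.H94.EX
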