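import Pool.Agent.H94.EX.Reg
import Pool.Agent.H94.EX.Fin

/-!
The limits of the factorial moments.
-/

set_option autoImplicit false

namespace Pool.Agent.H94.EX

open Finset Filter Topology

theorem exists_lim {ι : Type} (F : Ultrafilter ι) (f : ι → ℝ) (C : ℝ)
    (h : ∀ᶠ i in (F : Filter ι), 0 ≤ f i ∧ f i ≤ C) :
    ∃ x, 0 ≤ x ∧ Tendsto f F (𝓝 x) := by
  obtain ⟨x, hx, h1⟩ := (isCompact_Icc (a := (0 : ℝ)) (b := C)).ultrafilter_le_nhds (F.map f)
    (le_principal_iff.2 h)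
  exact ⟨x, hx.1, h1⟩

section

variable {ι : Type} {F : Filter ι} {n D : ι → ℝ} {l : ℕ} {M : ℝ}

theorem ratio_zero (hn : Tendsto n F atTop) {j k : ℕ} (hj : j ≤ k) :
    Tendsto (fun i => n i ^ j / n i ^ (k + 1)) F (𝓝 0) := by
  have h1 : Tendsto (fun i => (n i)⁻¹) F (𝓝 0) := tendsto_inv_atTop_zero.comp hn
  refine tendsto_of_tendsto_of_tendsto_of_le_of_le' tendsto_const_nhds h1 ?_ ?_
  · filter_upwards [hn.eventually_ge_atTop 1] with i hi
    have : 0 < n i := by linarith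
    positivity
  · filter_upwards [hn.eventually_ge_atTop 1] with i hi
    have h0 : 0 < n i := by linarith
    rw [div_le_iff₀ (by positivity), pow_succ, mul_comm, mul_assoc, mul_inv_cancel₀ h0.ne',
      mul_one]
    exact pow_le_pow_right₀ hi hj

theorem D_atTop (hn : Tendsto n F atTop) (hM : 0 < M) (hD0 : ∀ᶠ i in F, 0 < D i)
    (hD : ∀ᶠ i in F, M * n i ^ (l + 1) = D i ^ (l + 2)) : Tendsto D F atTop := by
  rw [tendsto_atTop]
  intro b
  filter_upwards [hn.eventually_ge_atTop 1, hn.eventually_ge_atTop ((max b 0) ^ (l + 2) / M),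
    hD0, hD] with i h1 h2 h3 h4
  have h5 : (max b 0) ^ (l + 2) ≤ D i ^ (l + 2) := by
    rw [← h4]
    rw [div_le_iff₀ hM, mul_comm] at h2
    refine h2.trans (mul_le_mul_of_nonneg_left ?_ hM.le)
    exact le_self_pow₀ h1 (Nat.succ_ne_zero _)
  exact (le_max_left b 0).trans (le_of_pow_le_pow_left₀ (Nat.succ_ne_zero _) h3.le h5)

theorem D_div (hn : Tendsto n F atTop) (hD0 : ∀ᶠ i in F, 0 < D i)
    (hD : ∀ᶠ i in F, M * n i ^ (l + 1) = D i ^ (l + 2)) :
    Tendsto (fun i => D i / n i) F (𝓝 0) := by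
  rw [Metric.tendsto_nhds]
  intro ε hε
  have hc : 0 < ε ^ (l + 2) := by positivity
  filter_upwards [hn.eventually_ge_atTop 1, hn.eventually_gt_atTop (M / ε ^ (l + 2)), hD0, hD]
    with i h1 h2 h3 h4
  have h0 : 0 < n i := by linarith
  rw [Real.dist_0_eq_abs, abs_of_pos (div_pos h3 h0)]
  refine lt_of_pow_lt_pow_left₀ (l + 2) hε.le ?_
  rw [div_pow, ← h4, div_lt_iff₀ (by positivity)]
  rw [div_lt_iff₀ hc] at h2
  calc M * n i ^ (l + 1) < (n i * ε ^ (l + 2)) * n i ^ (l + 1) :=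
        mul_lt_mul_of_pos_right h2 (by positivity)
    _ = ε ^ (l + 2) * n i ^ (l + 2) := by ring

theorem D_pow (hn : Tendsto n F atTop) (hM : 0 < M) (hD0 : ∀ᶠ i in F, 0 < D i)
    (hD : ∀ᶠ i in F, M * n i ^ (l + 1) = D i ^ (l + 2)) :
    Tendsto (fun i => n i ^ l / D i ^ (l + 1)) F (𝓝 0) := by
  have h1 := (D_div hn hD0 hD).div_const M
  rw [zero_div] at h1
  refine h1.congr' ?_
  filter_upwards [hn.eventually_ge_atTop 1, hD0, hD] with i h1 h3 h4
  have h0 : 0 < n i := by linarith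
  rw [div_div, div_eq_div_iff (by positivity) (by positivity)]
  calc D i * D i ^ (l + 1) = D i ^ (l + 2) := by ring
    _ = M * n i ^ (l + 1) := h4.symm
    _ = n i ^ l * (n i * M) := by ring

end

section

variable {ι : Type} {F : Filter ι} {l τ : ℕ} {v : ι → ℕ}
  {R : ∀ i, Fin (v i) → Fin (v i) → Prop} [∀ i, DecidableRel (R i)] {D : ι → ℝ}

/-- the deviation of the degrees -/
noncomputable def uu (R : ∀ i, Fin (v i) → Fin (v i) → Prop) [∀ i, DecidableRel (R i)]
    (D : ι → ℝ) (i : ι) (x : Fin (v i)) : ℝ := max 0 (1 - dd (R i) x / D i)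

omit [∀ i, DecidableRel (R i)] in
theorem card_pos' (hv : Tendsto v F atTop) : ∀ᶠ i in F, 0 < Fintype.card (Fin (v i)) := by
  filter_upwards [hv.eventually_gt_atTop 0] with i hi
  rw [Fintype.card_fin]
  exact hi

theorem KK_nonneg {V : Type} [Fintype V] [DecidableEq V] (R : V → V → Prop) [DecidableRel R]
    (k j : ℕ) : 0 ≤ KK R k j := nrm_nonneg fun _ => pow_nonneg (cc_nonneg _) _

theorem Er_nonneg {V : Type} [Fintype V] [DecidableEq V] (R : V → V → Prop) [DecidableRel R]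
    (k j : ℕ) : 0 ≤ Er R k j := nrm_nonneg fun _ => pow_nonneg (cc_nonneg _) _

/-- a bound for the moments -/
noncomputable def CC (τ k j : ℕ) : ℝ :=
  2 * (τ : ℝ) ^ j + 2 * (((k : ℝ) + 1) ^ 2 * (2 * ((k : ℝ) + 1) ^ 2) ^ k)

theorem KK_bound (hv : Tendsto v F atTop) {k : ℕ} (hF : ∀ i, Free (R i) (k + 1) τ) {j : ℕ}
    (hj : j ≤ k) : ∀ᶠ i in F, KK (R i) k j ≤ CC τ k j := by
  filter_upwards [card_pos' hv] with i hi
  have h1 := KK_le (R := R i) k j
  have h2 := kk_le (hF i) hi j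
  have h3 := Er_le (R := R i) k j (l := 2 * ((k : ℝ) + 1) ^ 2) (by positivity)
  have hn : (1 : ℝ) ≤ (Fintype.card (Fin (v i)) : ℝ) := by exact_mod_cast hi
  have h4 : (Fintype.card (Fin (v i)) : ℝ) ^ j / (Fintype.card (Fin (v i)) : ℝ) ^ (k + 1) ≤ 1 := by
    rw [div_le_one (by positivity)]
    exact pow_le_pow_right₀ hn (by omega)
  have h5 : (2 * ((k : ℝ) + 1) ^ 2) ^ k * (Fintype.card (Fin (v i)) : ℝ) ^ j /
      (Fintype.card (Fin (v i)) : ℝ) ^ (k + 1) ≤ (2 * ((k : ℝ) + 1) ^ 2) ^ k := by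
    rw [mul_div_assoc]
    exact mul_le_of_le_one_right (by positivity) h4
  have h6 : ((k : ℝ) + 1) ^ 2 * (KK (R i) k j / (2 * ((k : ℝ) + 1) ^ 2)) = KK (R i) k j / 2 := by
    field_simp
  have h7 : ((k : ℝ) + 1) ^ 2 * Er (R i) k j ≤ KK (R i) k j / 2 +
      ((k : ℝ) + 1) ^ 2 * (2 * ((k : ℝ) + 1) ^ 2) ^ k := by
    rw [← h6, ← mul_add]
    exact mul_le_mul_of_nonneg_left (by linarith) (by positivity)
  unfold CC
  linarith

theorem Er_zero (hv : Tendsto v F atTop) {k : ℕ} (hF : ∀ i, Free (R i) (k + 1) τ) {j : ℕ}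
    (hj : j ≤ k) : Tendsto (fun i => Er (R i) k j) F (𝓝 0) := by
  rw [Metric.tendsto_nhds]
  intro ε hε
  have hC : 0 < CC τ k j := by unfold CC; positivity
  set lam : ℝ := 2 * CC τ k j / ε with hlam
  have hlam0 : 0 < lam := by positivity
  have h1 := (ratio_zero (tendsto_natCast_atTop_atTop.comp hv) hj :
    Tendsto (fun i => ((Nat.cast : ℕ → ℝ) ∘ v) i ^ j / ((Nat.cast : ℕ → ℝ) ∘ v) i ^ (k + 1))
      F (𝓝 0)).const_mul (lam ^ k)
  rw [mul_zero] at h1
  filter_upwards [KK_bound hv hF hj, h1.eventually_lt_const (show (0 : ℝ) < ε / 2 by positivity)]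
    with i h2 h3
  rw [Real.dist_0_eq_abs, abs_of_nonneg (Er_nonneg _ _ _)]
  have h4 := Er_le (R := R i) k j hlam0
  have h5 : KK (R i) k j / lam ≤ ε / 2 := by
    rw [div_le_iff₀ hlam0, hlam]
    refine h2.trans (le_of_eq ?_)
    field_simp
  rw [mul_div_assoc, Fintype.card_fin] at h4
  simp only [Function.comp_apply] at h3
  linarith

theorem uu_zero (hv : Tendsto v F atTop) (hl : 1 ≤ l) (hτ : l < τ)
    (hF : ∀ i, Free (R i) (l + 2) τ) (hD0 : ∀ᶠ i in F, 0 < D i)
    (hD : ∀ᶠ i in F, ((τ : ℝ) - l) * (v i : ℝ) ^ (l + 1) = D i ^ (l + 2))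
    (hρ : Tendsto (fun i => (∑ x, dd (R i) x) / ((v i : ℝ) * D i)) F (𝓝 1)) :
    Tendsto (fun i => (∑ x, uu R D i x) / (v i : ℝ)) F (𝓝 0) := by
  have hM : 0 < (τ : ℝ) - l := by
    have : (l : ℝ) < τ := by exact_mod_cast hτ
    linarith
  have hn : Tendsto (fun i => (v i : ℝ)) F atTop := tendsto_natCast_atTop_atTop.comp hv
  have hDt : Tendsto D F atTop := D_atTop hn hM hD0 hD
  -- the squares
  have h1 : Tendsto (fun i => (∑ x, uu R D i x ^ 2) / (v i : ℝ)) F (𝓝 0) := by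
    rw [Metric.tendsto_nhds]
    intro ε hε
    set θ : ℝ := min (1 / 2) (ε / (8 * (2 ^ l + 1))) with hθ
    have hθ0 : 0 < θ := lt_min (by norm_num) (by positivity)
    have hθ1 : 2 * θ ≤ 1 := by
      have := min_le_left (1 / 2 : ℝ) (ε / (8 * (2 ^ l + 1)))
      linarith
    have hθ2 : (2 ^ l + 1) * (2 * θ) ≤ ε / 4 := by
      have h2 := min_le_right (1 / 2 : ℝ) (ε / (8 * (2 ^ l + 1)))
      rw [← hθ, le_div_iff₀ (by positivity)] at h2
      linarith
    have e1 := (D_pow hn hM hD0 hD).const_mul (((l : ℝ) + 2) ^ 2 * (1 + θ) / θ)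
    rw [mul_zero] at e1
    have e2 : Tendsto (fun i => (l : ℝ) / D i) F (𝓝 0) := tendsto_const_nhds.div_atTop hDt
    have e3 := ((tendsto_const_nhds (x := (l : ℝ) ^ 2)).div_atTop hDt).mul hρ
    rw [zero_mul] at e3
    filter_upwards [e1.eventually_lt_const (show (0 : ℝ) < ε / 4 by positivity),
      e2.eventually_le_const hθ0, e3.eventually_lt_const (show (0 : ℝ) < ε / 4 by positivity),
      hρ.eventually_const_lt (show 1 - ε / 4 < 1 by linarith), hD0, hD, card_pos' hv]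
      with i a1 a2 a3 a4 a5 a6 a7
    have h2 := reg hl (hF i) a7 a5 hθ0 hθ1 a2 (by rw [Fintype.card_fin]; exact a6)
    rw [Fintype.card_fin] at h2
    have h3 : 0 ≤ (∑ x, uu R D i x ^ 2) / (v i : ℝ) :=
      div_nonneg (sum_nonneg fun _ _ => sq_nonneg _) (Nat.cast_nonneg _)
    rw [Real.dist_0_eq_abs, abs_of_nonneg h3]
    change (∑ x, uu R D i x ^ 2) / (v i : ℝ) ≤ _ at h2
    linarith
  have h2 := h1.sqrt
  rw [Real.sqrt_zero] at h2
  refine tendsto_of_tendsto_of_tendsto_of_le_of_le' tendsto_const_nhds h2 ?_ ?_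
  · refine Eventually.of_forall fun i => ?_
    exact div_nonneg (sum_nonneg fun _ _ => le_max_left _ _) (Nat.cast_nonneg _)
  · filter_upwards [hv.eventually_gt_atTop 0] with i hi
    have hi' : (0 : ℝ) < v i := by exact_mod_cast hi
    refine Real.le_sqrt_of_sq_le ?_
    rw [div_pow, div_le_div_iff₀ (by positivity) hi']
    have h3 := sq_sum_le_card_mul_sum_sq (s := (univ : Finset (Fin (v i)))) (f := uu R D i)
    rw [card_univ, Fintype.card_fin] at h3
    calc (∑ x, uu R D i x) ^ 2 * (v i : ℝ) ≤ ((v i : ℝ) * ∑ x, uu R D i x ^ 2) * (v i : ℝ) :=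
          mul_le_mul_of_nonneg_right h3 hi'.le
      _ = _ := by ring

theorem Aj_zero (hv : Tendsto v F atTop) {k : ℕ} (hF : ∀ i, Free (R i) (k + 1) τ) {j : ℕ}
    (hj : j ≤ k) (hD0 : ∀ᶠ i in F, 0 < D i)
    (hu : Tendsto (fun i => (∑ x, uu R D i x) / (v i : ℝ)) F (𝓝 0)) :
    Tendsto (fun i => Aj (R i) (uu R D i) k j) F (𝓝 0) := by
  have h1 := (hu.const_mul ((τ : ℝ) ^ j)).add ((Er_zero hv hF hj).const_mul (((k : ℝ) + 1) ^ 2))
  rw [mul_zero, mul_zero, add_zero] at h1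
  refine tendsto_of_tendsto_of_tendsto_of_le_of_le' tendsto_const_nhds h1 ?_ ?_
  · refine Eventually.of_forall fun i => ?_
    exact nrm_nonneg fun J => mul_nonneg (pow_nonneg (cc_nonneg _) _)
      (sum_nonneg fun _ _ => le_max_left _ _)
  · filter_upwards [card_pos' hv, hD0] with i hi hDi
    have h2 := Aj_le (hF i) hi j (uu R D i) (fun _ => le_max_left _ _) (fun x => by
      refine max_le zero_le_one ?_
      have : 0 ≤ dd (R i) x / D i := div_nonneg (Nat.cast_nonneg _) hDi.le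
      linarith)
    rw [Fintype.card_fin] at h2
    exact h2

end

variable {ι : Type} {l τ : ℕ} {v : ι → ℕ}
  {R : ∀ i, Fin (v i) → Fin (v i) → Prop} [∀ i, DecidableRel (R i)] {D : ι → ℝ}

/-- **the limits of the factorial moments**, along an ultrafilter -/
theorem lim_ultra (F : Ultrafilter ι) (hv : Tendsto v F atTop) (hl : 1 ≤ l) (hτ : l < τ)
    (hF : ∀ i, Free (R i) (l + 2) τ) (hD0 : ∀ᶠ i in (F : Filter ι), 0 < D i)
    (hD : ∀ᶠ i in (F : Filter ι), ((τ : ℝ) - l) * (v i : ℝ) ^ (l + 1) = D i ^ (l + 2))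
    (hρ : Tendsto (fun i => (∑ x, dd (R i) x) / ((v i : ℝ) * D i)) F (𝓝 1)) (j : ℕ)
    (hj : j ≤ l + 1) : Tendsto (fun i => kk (R i) (l + 1) j) F (𝓝 (((τ : ℝ) - l) ^ j)) := by
  have hM : 0 < (τ : ℝ) - l := by
    have : (l : ℝ) < τ := by exact_mod_cast hτ
    linarith
  set M : ℝ := (τ : ℝ) - l with hMdef
  have hn : Tendsto (fun i => (v i : ℝ)) F atTop := tendsto_natCast_atTop_atTop.comp hv
  have hDt : Tendsto D F atTop := D_atTop hn hM hD0 hD
  have hu := uu_zero hv hl hτ hF hD0 hD hρ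
  have hcp := card_pos' hv (F := (F : Filter ι))
  have hex : ∀ j : ℕ, ∃ x : ℝ, j ≤ l + 1 → Tendsto (fun i => KK (R i) (l + 1) j) F (𝓝 x) := by
    intro j
    by_cases hj : j ≤ l + 1
    · obtain ⟨x, -, hx⟩ := exists_lim F (fun i => KK (R i) (l + 1) j) (CC τ (l + 1) j) (by
        filter_upwards [KK_bound hv hF hj] with i hi
        exact ⟨KK_nonneg _ _ _, hi⟩)
      exact ⟨x, fun _ => hx⟩
    · exact ⟨0, fun h => absurd h hj⟩
  choose κ hκ using hex
  have hkk : ∀ j ≤ l + 1, Tendsto (fun i => kk (R i) (l + 1) j) F (𝓝 (κ j)) := by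
    intro j hj
    have h1 := (hκ j hj).sub ((Er_zero hv hF hj).const_mul ((((l + 1 : ℕ) : ℝ) + 1) ^ 2))
    rw [mul_zero, sub_zero] at h1
    refine tendsto_of_tendsto_of_tendsto_of_le_of_le h1 (hκ j hj) (fun i => ?_)
      fun i => kk_le_KK _ _
    have := KK_le (R := R i) (l + 1) j
    show _ - _ ≤ _
    linarith
  have hκ0 : κ 0 = 1 := by
    refine tendsto_nhds_unique (hκ 0 (by omega)) ?_
    refine tendsto_const_nhds.congr' ?_
    filter_upwards [hcp] with i hi
    have hi' : (0 : ℝ) < (Fintype.card (Fin (v i)) : ℝ) := by exact_mod_cast hi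
    unfold KK nrm
    rw [powersetCard_zero, sum_singleton, Nat.factorial_zero, Nat.cast_one, one_mul]
    have : cc (R i) ∅ = (Fintype.card (Fin (v i)) : ℝ) := by
      unfold cc nb
      simp
    rw [this, div_self (pow_pos hi' _).ne']
  have key : ∀ j ≤ l + 1, κ j = M ^ j := by
    refine final κ l hl M hM hκ0 ?_ ?_
    · refine le_of_tendsto_of_tendsto (hkk (l + 1) le_rfl)
        ((hkk l (by omega)).const_mul M) ?_
      exact Eventually.of_forall fun i => kk_succ_le (hF i) l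
    · intro j hj δ hδ
      -- the choice of `ε`
      set ε : ℝ := min 1 (δ / ((l + 1 : ℕ) + 1 : ℝ)) with hε
      have hε0 : 0 < ε := lt_min one_pos (by positivity)
      have hε1 : (((l + 1 : ℕ) : ℝ) + 1) * ε ^ (l + 1) ≤ δ := by
        have h1 : ε ^ (l + 1) ≤ ε := pow_le_of_le_one hε0.le (min_le_left _ _) (by omega)
        have h2 : ε ≤ δ / ((l + 1 : ℕ) + 1 : ℝ) := min_le_right _ _
        rw [le_div_iff₀ (by positivity)] at h2
        have h3 : (0 : ℝ) ≤ ((l + 1 : ℕ) : ℝ) + 1 := by positivity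
        calc (((l + 1 : ℕ) : ℝ) + 1) * ε ^ (l + 1) ≤ (((l + 1 : ℕ) : ℝ) + 1) * ε :=
              mul_le_mul_of_nonneg_left h1 h3
          _ ≤ δ := by linarith
      -- limits
      have hKb := KK_bound hv hF (F := (F : Filter ι)) (show j + 1 ≤ l + 1 by omega)
      have hKb2 := KK_bound hv hF (F := (F : Filter ι)) (show j + 2 ≤ l + 1 by omega)
      have hA0 := Aj_zero hv hF (show j ≤ l + 1 by omega) hD0 hu
      have hA1 := Aj_zero hv hF (show j + 1 ≤ l + 1 by omega) hD0 hu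
      have hη : Tendsto (fun i => (((l + 1 : ℕ) : ℝ) + 1) * (bb (l + 1) j τ ε / D i)) F (𝓝 0) := by
        have := ((tendsto_const_nhds (x := bb (l + 1) j τ ε)).div_atTop hDt).const_mul
          (((l + 1 : ℕ) : ℝ) + 1)
        rwa [mul_zero] at this
      have hc : ∀ m ≤ l + 1, Tendsto (fun i => c0 (l + 1) ε ^ (l + 1 + 1) *
          (Fintype.card (Fin (v i)) : ℝ) ^ m / (Fintype.card (Fin (v i)) : ℝ) ^ (l + 1 + 1))
          F (𝓝 0) := by
        intro m hm
        have h1 := (ratio_zero hn hm).const_mul (c0 (l + 1) ε ^ (l + 1 + 1))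
        rw [mul_zero] at h1
        simp only [Fintype.card_fin, mul_div_assoc]
        exact h1
      have hMi : ∀ᶠ i in (F : Filter ι), D i ^ (l + 1 + 1) /
          (Fintype.card (Fin (v i)) : ℝ) ^ (l + 1) = M := by
        filter_upwards [hD, hcp] with i h1 h2
        have h3 : (0 : ℝ) < (Fintype.card (Fin (v i)) : ℝ) := by exact_mod_cast h2
        rw [div_eq_iff (pow_pos h3 _).ne', Fintype.card_fin]
        exact h1.symm
      have hdd : ∀ᶠ i in (F : Filter ι), ∀ x, D i * (1 - uu R D i x) ≤ dd (R i) x := by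
        filter_upwards [hD0] with i hi x
        have h1 : 1 - dd (R i) x / D i ≤ uu R D i x := le_max_right _ _
        have h2 : 1 - uu R D i x ≤ dd (R i) x / D i := by linarith
        rw [le_div_iff₀ hi] at h2
        linarith
      obtain ⟨e, he0, he⟩ := exists_lim F (fun i => EE (R i) (l + 1) j ε) (CC τ (l + 1) (j + 1)) (by
        filter_upwards [hKb] with i hi
        have h1 := EG_le (R := R i) (l + 1) j ε
        have h2 := GG_nonneg (R := R i) (l + 1) j ε
        exact ⟨EE_nonneg _ _ _, by linarith⟩)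
      obtain ⟨g, hg0, hg⟩ := exists_lim F (fun i => GG (R i) (l + 1) j ε) (CC τ (l + 1) (j + 1)) (by
        filter_upwards [hKb] with i hi
        have h1 := EG_le (R := R i) (l + 1) j ε
        have h2 := EE_nonneg (R := R i) (l + 1) j ε
        exact ⟨GG_nonneg _ _ _, by linarith⟩)
      have hstep : ∀ᶠ i in (F : Filter ι), 2 * (M * ((1 - (((l + 1 : ℕ) : ℝ) + 1) *
          (bb (l + 1) j τ ε / D i)) * EE (R i) (l + 1) j ε -
          (((l + 1 : ℕ) : ℝ) + 1) * Aj (R i) (uu R D i) (l + 1) (j + 1))) +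
          QQ (R i) (l + 1) j ε - (((l + 1 : ℕ) : ℝ) + 1) * ε ^ (l + 1) * GG (R i) (l + 1) j ε ≤
            KK (R i) (l + 1) (j + 2) := by
        filter_upwards [hcp, hD0, hdd, hMi] with i h1 h2 h3 h4
        have h5 := step (hF i) h1 j hε0 h2 (uu R D i) (fun _ => le_max_left _ _) h3
        rw [h4] at h5
        exact h5
      obtain ⟨q, hq0, hq⟩ := exists_lim F (fun i => QQ (R i) (l + 1) j ε)
        (CC τ (l + 1) (j + 2) + (((l + 1 : ℕ) : ℝ) + 1) * ε ^ (l + 1) * CC τ (l + 1) (j + 1) +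
          2 * (M * (((l + 1 : ℕ) : ℝ) + 1))) (by
        filter_upwards [hstep, hKb, hKb2, hη.eventually_le_const one_pos,
          hA1.eventually_le_const one_pos] with i h1 h2 h3 h4 h5
        have h6 := EG_le (R := R i) (l + 1) j ε
        have h7 := EE_nonneg (R := R i) (l + 1) j ε
        have hQ : 0 ≤ QQ (R i) (l + 1) j ε := nrm_nonneg fun I => by
          split_ifs
          · exact div_nonneg (sq_nonneg _) (pow_nonneg (cc_nonneg _) _)
          · exact le_rfl
        refine ⟨hQ, ?_⟩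
        have h8 : GG (R i) (l + 1) j ε ≤ CC τ (l + 1) (j + 1) := by linarith
        have h9 : (0 : ℝ) ≤ (((l + 1 : ℕ) : ℝ) + 1) * ε ^ (l + 1) := by positivity
        have h10 := mul_le_mul_of_nonneg_left h8 h9
        have h11 : 0 ≤ M * ((1 - (((l + 1 : ℕ) : ℝ) + 1) * (bb (l + 1) j τ ε / D i)) *
          EE (R i) (l + 1) j ε) := mul_nonneg hM.le (mul_nonneg (by linarith) h7)
        have h12 : M * ((((l + 1 : ℕ) : ℝ) + 1) * Aj (R i) (uu R D i) (l + 1) (j + 1)) ≤
            M * ((((l + 1 : ℕ) : ℝ) + 1) * 1) :=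
          mul_le_mul_of_nonneg_left (mul_le_mul_of_nonneg_left h5 (by positivity)) hM.le
        linarith)
      have hK0 := hκ j (by omega)
      have hK1 := hκ (j + 1) (by omega)
      have hK2 := hκ (j + 2) (by omega)
      refine ⟨e, g, q, he0, hg0, ?_, ?_, ?_, ?_, ?_⟩
      · refine le_antisymm ?_ ?_
        · exact le_of_tendsto_of_tendsto (he.add hg) hK1
            (Eventually.of_forall fun i => EG_le (R := R i) (l + 1) j ε)
        · have h1 := (he.add hg).add (hc (j + 1) (by omega))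
          rw [add_zero] at h1
          exact le_of_tendsto_of_tendsto hK1 h1
            (Eventually.of_forall fun i => le_EG (R := R i) (l + 1) j hε0)
      · have h1 : Tendsto (fun i => M * ((1 - (((l + 1 : ℕ) : ℝ) + 1) *
            (bb (l + 1) j τ ε / D i)) * (KK (R i) (l + 1) j - c0 (l + 1) ε ^ (l + 1 + 1) *
              (Fintype.card (Fin (v i)) : ℝ) ^ j / (Fintype.card (Fin (v i)) : ℝ) ^ (l + 1 + 1)) -
            (((l + 1 : ℕ) : ℝ) + 1) * Aj (R i) (uu R D i) (l + 1) j)) F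
            (𝓝 (M * ((1 - 0) * (κ j - 0) - (((l + 1 : ℕ) : ℝ) + 1) * 0))) :=
          (((hη.const_sub 1).mul (hK0.sub (hc j (by omega)))).sub
            (hA0.const_mul _)).const_mul M
        rw [sub_zero, sub_zero, mul_zero, sub_zero, one_mul] at h1
        refine le_of_tendsto_of_tendsto h1 hg ?_
        filter_upwards [hcp, hD0, hdd, hMi, hη.eventually_le_const one_pos] with i h1 h2 h3 h4 h5
        have h6 := GG_ge (hF i) h1 j hε0 h2 (uu R D i) (fun _ => le_max_left _ _) h3 h5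
        rw [h4] at h6
        exact h6
      · refine le_of_tendsto_of_tendsto (hg.pow 2) (hq.mul hK0) ?_
        filter_upwards [hcp] with i h1
        exact QQ_mul (R := R i) (l + 1) j hε0 h1
      · refine le_of_tendsto_of_tendsto ((hg.const_mul (2 * M)).sub (hK0.const_mul (M ^ 2))) hq ?_
        exact Eventually.of_forall fun i => QQ_ge (R := R i) (l + 1) j hε0 M
      · have h1 : Tendsto (fun i => 2 * (M * ((1 - (((l + 1 : ℕ) : ℝ) + 1) *
            (bb (l + 1) j τ ε / D i)) * EE (R i) (l + 1) j ε -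
            (((l + 1 : ℕ) : ℝ) + 1) * Aj (R i) (uu R D i) (l + 1) (j + 1))) +
            QQ (R i) (l + 1) j ε - (((l + 1 : ℕ) : ℝ) + 1) * ε ^ (l + 1) *
              GG (R i) (l + 1) j ε) F
            (𝓝 (2 * (M * ((1 - 0) * e - (((l + 1 : ℕ) : ℝ) + 1) * 0)) + q -
              (((l + 1 : ℕ) : ℝ) + 1) * ε ^ (l + 1) * g)) :=
          (((((hη.const_sub 1).mul he).sub (hA1.const_mul _)).const_mul M).const_mul 2
            |>.add hq).sub (hg.const_mul _)
        have h2 := le_of_tendsto_of_tendsto h1 hK2 hstep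
        have h3 := mul_le_mul_of_nonneg_right hε1 hg0
        rw [sub_zero, mul_zero, sub_zero, one_mul] at h2
        linarith
  rw [← key j hj]
  exact hkk j hj

/-- the limits of the factorial moments -/
theorem lim_main {F : Filter ι} (hv : Tendsto v F atTop) (hl : 1 ≤ l) (hτ : l < τ)
    (hF : ∀ i, Free (R i) (l + 2) τ) (hD0 : ∀ᶠ i in F, 0 < D i)
    (hD : ∀ᶠ i in F, ((τ : ℝ) - l) * (v i : ℝ) ^ (l + 1) = D i ^ (l + 2))
    (hρ : Tendsto (fun i => (∑ x, dd (R i) x) / ((v i : ℝ) * D i)) F (𝓝 1)) (j : ℕ)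
    (hj : j ≤ l + 1) : Tendsto (fun i => kk (R i) (l + 1) j) F (𝓝 (((τ : ℝ) - l) ^ j)) := by
  rw [tendsto_iff_ultrafilter]
  intro G hG
  exact lim_ultra G (hv.mono_left hG) hl hτ hF (hD0.filter_mono hG) (hD.filter_mono hG)
    (hρ.mono_left hG) j hj

end Pool.Agent.H94.EX
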