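import Pool.Agent.H94.EX.Step

/-!
Near extremal relations are nearly regular.
-/

set_option autoImplicit false

namespace Pool.Agent.H94.EX

open Finset

variable {V : Type} [Fintype V] [DecidableEq V] {R : V → V → Prop} [DecidableRel R]

/-- the number of elements to which `x` is related -/
def dn (R : V → V → Prop) [DecidableRel R] (x : V) : ℕ := (univ.filter fun y => R x y).card

theorem dd_eq (x : V) : dd R x = (dn R x : ℝ) := rfl

theorem sum_cc (j : ℕ) :
    ∑ J ∈ powersetCard j univ, cc R J = ∑ x, (((dn R x).choose j : ℕ) : ℝ) := by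
  have h1 : ∀ J : Finset V, cc R J = ∑ x : V, if ∀ y ∈ J, R x y then (1 : ℝ) else 0 := by
    intro J
    unfold cc nb
    rw [← sum_filter, sum_const, nsmul_eq_mul, mul_one]
  simp only [h1]
  rw [sum_comm]
  refine sum_congr rfl fun x _ => ?_
  rw [← sum_filter, sum_const, nsmul_eq_mul, mul_one]
  unfold dn
  rw [← card_powersetCard]
  congr 2
  ext J
  rw [mem_filter, mem_powersetCard, mem_powersetCard]
  constructor
  · rintro ⟨⟨-, h1⟩, h2⟩
    exact ⟨fun y hy => mem_filter.2 ⟨mem_univ _, h2 y hy⟩, h1⟩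
  · rintro ⟨h1, h2⟩
    exact ⟨⟨subset_univ _, h2⟩, fun y hy => (mem_filter.1 (h1 hy)).2⟩

/-- a bound for the sum of the neighbourhoods in a common neighbourhood -/
theorem sum_cc_insert_le {k τ : ℕ} (hF : Free R (k + 1) τ) (hn : 0 < Fintype.card V)
    (J : Finset V) {D θ : ℝ} (hD : 0 < D) (hθ : 0 < θ)
    (hM : ((τ : ℝ) - J.card) * (Fintype.card V : ℝ) ^ k = D ^ (k + 1)) :
    ∑ y ∈ univ \ J, cc R (insert y J) ≤
      (1 + θ) * D * cc R J + ((k : ℝ) + 1) ^ 2 * (1 + θ) / θ * (Fintype.card V : ℝ) := by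
  classical
  have hn' : (0 : ℝ) < (Fintype.card V : ℝ) := by exact_mod_cast hn
  set n : ℝ := (Fintype.card V : ℝ)
  set L : ℝ := ((k : ℝ) + 1) ^ 2 * (1 + θ) / θ with hL
  have hL0 : 0 < L := by positivity
  have hM0 : 0 ≤ (τ : ℝ) - J.card := by
    by_contra hc
    push Not at hc
    have h1 : ((τ : ℝ) - J.card) * n ^ k ≤ 0 :=
      mul_nonpos_of_nonpos_of_nonneg hc.le (by positivity)
    have h2 : 0 < D ^ (k + 1) := by positivity
    linarith
  set Y := (univ \ J).filter fun y => L ≤ cc R (insert y J) with hY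
  have h1 : ∑ y ∈ univ \ J, cc R (insert y J) ≤ ∑ y ∈ Y, cc R (insert y J) + L * n := by
    rw [← sum_filter_add_sum_filter_not (univ \ J) (fun y => L ≤ cc R (insert y J))]
    refine add_le_add le_rfl ?_
    calc ∑ y ∈ (univ \ J).filter (fun y => ¬ L ≤ cc R (insert y J)), cc R (insert y J)
        ≤ ∑ y ∈ (univ \ J).filter (fun y => ¬ L ≤ cc R (insert y J)), L :=
          sum_le_sum fun y hy => (not_le.1 (mem_filter.1 hy).2).le
      _ ≤ ∑ y : V, L := sum_le_sum_of_subset_of_nonneg (subset_univ _) fun _ _ _ => hL0.le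
      _ = L * n := by rw [sum_const, nsmul_eq_mul, card_univ, mul_comm]
  have h2 : ∀ y ∈ Y, cc R (insert y J) ^ (k + 1) ≤
      (1 + θ) * ((nb R (insert y J)).card.descFactorial (k + 1) : ℝ) := by
    intro y hy
    have h3 : L ≤ cc R (insert y J) := (mem_filter.1 hy).2
    have h4 := desc_ge (nb R (insert y J)).card k
    change cc R (insert y J) ^ (k + 1) - ((k : ℝ) + 1) ^ 2 * cc R (insert y J) ^ k ≤ _ at h4
    have h5 : ((k : ℝ) + 1) ^ 2 * cc R (insert y J) ^ k ≤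
        θ / (1 + θ) * cc R (insert y J) ^ (k + 1) := by
      rw [pow_succ' (cc R (insert y J)) k, ← mul_assoc]
      refine mul_le_mul_of_nonneg_right ?_ (pow_nonneg (cc_nonneg _) _)
      have h6 := mul_le_mul_of_nonneg_left h3 (show 0 ≤ θ / (1 + θ) by positivity)
      refine le_trans (le_of_eq ?_) h6
      rw [hL]
      field_simp
    have h6 : θ / (1 + θ) * cc R (insert y J) ^ (k + 1) = cc R (insert y J) ^ (k + 1) -
        cc R (insert y J) ^ (k + 1) / (1 + θ) := by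
      field_simp
      ring
    have h7 : cc R (insert y J) ^ (k + 1) / (1 + θ) ≤
        ((nb R (insert y J)).card.descFactorial (k + 1) : ℝ) := by linarith
    rw [div_le_iff₀ (by positivity)] at h7
    linarith
  have h3 : ∑ y ∈ Y, cc R (insert y J) ^ (k + 1) ≤
      (1 + θ) * (((τ : ℝ) - J.card) * cc R J ^ (k + 1)) := by
    calc ∑ y ∈ Y, cc R (insert y J) ^ (k + 1)
        ≤ ∑ y ∈ Y, (1 + θ) * ((nb R (insert y J)).card.descFactorial (k + 1) : ℝ) :=
          sum_le_sum h2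
      _ ≤ ∑ y ∈ univ \ J, (1 + θ) * ((nb R (insert y J)).card.descFactorial (k + 1) : ℝ) :=
          sum_le_sum_of_subset_of_nonneg (filter_subset _ _) fun _ _ _ => by positivity
      _ = (1 + θ) * ∑ y ∈ univ \ J, ((nb R (insert y J)).card.descFactorial (k + 1) : ℝ) := by
          rw [mul_sum]
      _ ≤ (1 + θ) * (((τ : ℝ) - J.card) * ((nb R J).card.descFactorial (k + 1) : ℝ)) :=
          mul_le_mul_of_nonneg_left (sum_desc_le hF J) (by positivity)
      _ ≤ _ := by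
          refine mul_le_mul_of_nonneg_left (mul_le_mul_of_nonneg_left ?_ hM0) (by positivity)
          unfold cc
          exact_mod_cast Nat.descFactorial_le_pow _ _
  have h4 : (∑ y ∈ Y, cc R (insert y J)) ^ (k + 1) ≤ ((1 + θ) * D * cc R J) ^ (k + 1) := by
    rcases Y.eq_empty_or_nonempty with h0 | h0
    · rw [h0, sum_empty, zero_pow (Nat.succ_ne_zero _)]
      have := cc_nonneg (R := R) J
      positivity
    have h5 := pow_sum_div_card_le_sum_pow (s := Y) (f := fun y => cc R (insert y J))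
      (fun y _ => cc_nonneg _) k
    have hYc : (0 : ℝ) < Y.card := by exact_mod_cast h0.card_pos
    rw [div_le_iff₀ (by positivity)] at h5
    have h6 : (Y.card : ℝ) ^ k ≤ n ^ k := by
      refine pow_le_pow_left₀ hYc.le ?_ _
      show (Y.card : ℝ) ≤ (Fintype.card V : ℝ)
      exact_mod_cast card_le_univ _
    have h7 : 0 ≤ ∑ y ∈ Y, cc R (insert y J) ^ (k + 1) :=
      sum_nonneg fun _ _ => pow_nonneg (cc_nonneg _) _
    calc (∑ y ∈ Y, cc R (insert y J)) ^ (k + 1)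
        ≤ (∑ y ∈ Y, cc R (insert y J) ^ (k + 1)) * (Y.card : ℝ) ^ k := h5
      _ ≤ (∑ y ∈ Y, cc R (insert y J) ^ (k + 1)) * n ^ k := mul_le_mul_of_nonneg_left h6 h7
      _ ≤ ((1 + θ) * (((τ : ℝ) - J.card) * cc R J ^ (k + 1))) * n ^ k :=
          mul_le_mul_of_nonneg_right h3 (by positivity)
      _ = (1 + θ) * (D * cc R J) ^ (k + 1) := by rw [mul_pow, ← hM]; ring
      _ ≤ (1 + θ) ^ (k + 1) * (D * cc R J) ^ (k + 1) := by
          refine mul_le_mul_of_nonneg_right ?_ (by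
            have := cc_nonneg (R := R) J
            positivity)
          exact le_self_pow₀ (by linarith) (Nat.succ_ne_zero _)
      _ = _ := by rw [← mul_pow, mul_assoc]
  have h5 : ∑ y ∈ Y, cc R (insert y J) ≤ (1 + θ) * D * cc R J :=
    le_of_pow_le_pow_left₀ (Nat.succ_ne_zero k) (by
      have := cc_nonneg (R := R) J
      positivity) h4
  linarith

/-- the sums of the binomial coefficients of the degrees -/
theorem sum_desc_deg {l τ : ℕ} (hF : Free R (l + 2) τ) (hn : 0 < Fintype.card V)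
    {D θ : ℝ} (hD : 0 < D) (hθ : 0 < θ)
    (hM : ((τ : ℝ) - l) * (Fintype.card V : ℝ) ^ (l + 1) = D ^ (l + 2)) :
    ∑ x, ((dn R x).descFactorial (l + 1) : ℝ) ≤
      (1 + θ) * D * ∑ x, ((dn R x).descFactorial l : ℝ) +
        ((l : ℝ) + 2) ^ 2 * (1 + θ) / θ * (Fintype.card V : ℝ) ^ (l + 1) := by
  have hn' : (0 : ℝ) < (Fintype.card V : ℝ) := by exact_mod_cast hn
  have h1 : ∑ J ∈ powersetCard l (univ : Finset V), ∑ y ∈ univ \ J, cc R (insert y J) ≤
      ∑ J ∈ powersetCard l (univ : Finset V), ((1 + θ) * D * cc R J +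
        ((l : ℝ) + 2) ^ 2 * (1 + θ) / θ * (Fintype.card V : ℝ)) := by
    refine sum_le_sum fun J hJ => ?_
    have hJ' := (mem_powersetCard.1 hJ).2
    have h2 := sum_cc_insert_le (k := l + 1) hF hn J hD hθ (by rw [hJ']; exact hM)
    refine h2.trans (le_of_eq ?_)
    push_cast
    ring
  rw [sum_insert_powerset', sum_add_distrib, ← mul_sum, sum_cc, sum_cc, sum_const, nsmul_eq_mul,
    card_powersetCard, card_univ] at h1
  have h2 : ∀ n m : ℕ, ((n.descFactorial m : ℕ) : ℝ) = (m.factorial : ℝ) * (n.choose m : ℝ) := by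
    intro n m
    exact_mod_cast Nat.descFactorial_eq_factorial_mul_choose n m
  simp only [h2]
  rw [← mul_sum, ← mul_sum, Nat.factorial_succ]
  have h3 : ((l.factorial : ℝ)) * ((Fintype.card V).choose l : ℝ) ≤ (Fintype.card V : ℝ) ^ l := by
    rw [← h2]
    exact_mod_cast Nat.descFactorial_le_pow _ _
  have h4 := mul_le_mul_of_nonneg_left h1 (Nat.cast_nonneg (α := ℝ) l.factorial)
  have h5 : 0 ≤ ((l : ℝ) + 2) ^ 2 * (1 + θ) / θ * (Fintype.card V : ℝ) := by positivity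
  have h6 := mul_le_mul_of_nonneg_right h3 h5
  push_cast at h4 ⊢
  rw [pow_succ (Fintype.card V : ℝ) l]
  nlinarith

theorem point (d l : ℕ) (hl : 1 ≤ l) {D θ : ℝ} (hD : 0 < D) (hθ : 0 ≤ θ) (hθ1 : θ ≤ 1) :
    ((d : ℝ) / D - 1) + (max 0 (1 - (d : ℝ) / D)) ^ 2 - (2 ^ l + 1) * θ -
        (l : ℝ) ^ 2 / D * ((d : ℝ) / D) ≤
      (d.descFactorial l : ℝ) / D ^ l * ((d : ℝ) / D - 1 - θ) := by
  set δ : ℝ := (d : ℝ) / D with hδ
  have hδ0 : 0 ≤ δ := by positivity
  set w : ℝ := (d.descFactorial l : ℝ) / D ^ l with hw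
  have hw0 : 0 ≤ w := by positivity
  have hwle : w ≤ δ ^ l := by
    rw [hw, hδ, div_pow]
    refine div_le_div_of_nonneg_right ?_ (by positivity)
    exact_mod_cast Nat.descFactorial_le_pow _ _
  have ha : 0 ≤ (l : ℝ) ^ 2 / D * δ := by positivity
  have h2l : (1 : ℝ) ≤ 2 ^ l := one_le_pow₀ (by norm_num)
  rcases lt_or_ge δ 1 with h | h
  · rw [max_eq_right (by linarith)]
    have h1 : w ≤ δ := hwle.trans (pow_le_of_le_one hδ0 h.le (by omega))
    have h2 : δ * (δ - 1 - θ) ≤ w * (δ - 1 - θ) :=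
      mul_le_mul_of_nonpos_right h1 (by linarith)
    nlinarith
  · rw [max_eq_left (by linarith)]
    rcases lt_or_ge δ (1 + θ) with h' | h'
    · have h1 : w ≤ 2 ^ l := hwle.trans (pow_le_pow_left₀ hδ0 (by linarith) _)
      have h2 : 2 ^ l * (δ - 1 - θ) ≤ w * (δ - 1 - θ) :=
        mul_le_mul_of_nonpos_right h1 (by linarith)
      nlinarith
    · have h1 : 1 - (l : ℝ) ^ 2 / D ≤ w := by
        by_cases h3 : 1 - (l : ℝ) ^ 2 / D ≤ 0
        · linarith
        push Not at h3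
        have hd : D ≤ d := by
          rw [hδ, le_div_iff₀ hD] at h
          linarith
        have hd0 : (0 : ℝ) < d := lt_of_lt_of_le hD hd
        have h4 := desc_mul d l
        have h5 : (d : ℝ) ^ l * (1 - (l : ℝ) ^ 2 / d) ≤ (d.descFactorial l : ℝ) := by
          have h6 : (d : ℝ) ^ l - (d.descFactorial l : ℝ) ≤ (l : ℝ) ^ 2 * (d : ℝ) ^ l / d := by
            rw [le_div_iff₀ hd0]
            linarith
          have h7 : (d : ℝ) ^ l * (1 - (l : ℝ) ^ 2 / d) =
            (d : ℝ) ^ l - (l : ℝ) ^ 2 * (d : ℝ) ^ l / d := by ring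
          linarith
        have h6 : (l : ℝ) ^ 2 / d ≤ (l : ℝ) ^ 2 / D :=
          div_le_div_of_nonneg_left (by positivity) hD hd
        rw [hw, le_div_iff₀ (by positivity)]
        refine le_trans ?_ h5
        rw [mul_comm]
        refine mul_le_mul (pow_le_pow_left₀ hD.le hd _) (by linarith) h3.le (by positivity)
      have h2 : (1 - (l : ℝ) ^ 2 / D) * (δ - 1 - θ) ≤ w * (δ - 1 - θ) :=
        mul_le_mul_of_nonneg_right h1 (by linarith)
      have h3 : 0 ≤ (l : ℝ) ^ 2 / D := by positivity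
      nlinarith

/-- **near regularity** -/
theorem reg {l τ : ℕ} (hl : 1 ≤ l) (hF : Free R (l + 2) τ) (hn : 0 < Fintype.card V)
    {D θ : ℝ} (hD : 0 < D) (hθ : 0 < θ) (hθ1 : 2 * θ ≤ 1) (hlD : (l : ℝ) / D ≤ θ)
    (hM : ((τ : ℝ) - l) * (Fintype.card V : ℝ) ^ (l + 1) = D ^ (l + 2)) :
    (∑ x, (max 0 (1 - dd R x / D)) ^ 2) / (Fintype.card V : ℝ) ≤
      ((l : ℝ) + 2) ^ 2 * (1 + θ) / θ * ((Fintype.card V : ℝ) ^ l / D ^ (l + 1)) +
        (1 - (∑ x, dd R x) / ((Fintype.card V : ℝ) * D)) + (2 ^ l + 1) * (2 * θ) +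
          (l : ℝ) ^ 2 / D * ((∑ x, dd R x) / ((Fintype.card V : ℝ) * D)) := by
  have hn' : (0 : ℝ) < (Fintype.card V : ℝ) := by exact_mod_cast hn
  set n : ℝ := (Fintype.card V : ℝ) with hnn
  have h1 := sum_desc_deg hF hn hD hθ hM
  have h2 : ∀ x, ((dn R x).descFactorial (l + 1) : ℝ) =
      ((dn R x : ℝ) - l) * ((dn R x).descFactorial l : ℝ) := by
    intro x
    rw [Nat.descFactorial_succ, Nat.cast_mul]
    rcases le_or_gt l (dn R x) with h | h
    · rw [Nat.cast_sub h]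
    · rw [Nat.descFactorial_eq_zero_iff_lt.2 h]
      simp
  simp only [h2] at h1
  rw [mul_sum] at h1
  have h3 : ∑ x, (((dn R x).descFactorial l : ℝ) / D ^ l * ((dn R x : ℝ) / D - 1 - 2 * θ)) ≤
      ((l : ℝ) + 2) ^ 2 * (1 + θ) / θ * n ^ (l + 1) / D ^ (l + 1) := by
    rw [le_div_iff₀ (by positivity), sum_mul]
    have h4 : ∀ x ∈ (univ : Finset V), ((dn R x).descFactorial l : ℝ) / D ^ l *
        ((dn R x : ℝ) / D - 1 - 2 * θ) * D ^ (l + 1) ≤
        ((dn R x : ℝ) - l) * ((dn R x).descFactorial l : ℝ) -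
          (1 + θ) * D * ((dn R x).descFactorial l : ℝ) := by
      intro x _
      have h5 : ((dn R x).descFactorial l : ℝ) / D ^ l *
        ((dn R x : ℝ) / D - 1 - 2 * θ) * D ^ (l + 1) =
        ((dn R x).descFactorial l : ℝ) * ((dn R x : ℝ) - (1 + 2 * θ) * D) := by
        rw [pow_succ]
        field_simp
        ring
      rw [h5]
      have h6 : (l : ℝ) ≤ θ * D := by
        rw [div_le_iff₀ hD] at hlD
        exact hlD
      have h7 : ((dn R x : ℝ) - (1 + 2 * θ) * D) ≤ ((dn R x : ℝ) - l) - (1 + θ) * D := by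
        nlinarith
      have h8 := mul_le_mul_of_nonneg_left h7
        (Nat.cast_nonneg (α := ℝ) ((dn R x).descFactorial l))
      linarith
    have h5 := sum_le_sum h4
    rw [sum_sub_distrib] at h5
    linarith
  have h4 : ∀ x ∈ (univ : Finset V), (((dn R x : ℝ) / D - 1) +
      (max 0 (1 - (dn R x : ℝ) / D)) ^ 2 - (2 ^ l + 1) * (2 * θ) -
        (l : ℝ) ^ 2 / D * ((dn R x : ℝ) / D)) ≤
      ((dn R x).descFactorial l : ℝ) / D ^ l * ((dn R x : ℝ) / D - 1 - 2 * θ) :=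
    fun x _ => point _ _ hl hD (by linarith) hθ1
  have h5 := (sum_le_sum h4).trans h3
  rw [sum_sub_distrib, sum_sub_distrib, sum_add_distrib, sum_sub_distrib, ← mul_sum, ← sum_div,
    sum_const, sum_const, nsmul_eq_mul, nsmul_eq_mul, card_univ, ← hnn] at h5
  simp only [dd_eq]
  rw [div_le_iff₀ hn']
  have h6 : ((l : ℝ) + 2) ^ 2 * (1 + θ) / θ * n ^ (l + 1) / D ^ (l + 1) =
      ((l : ℝ) + 2) ^ 2 * (1 + θ) / θ * (n ^ l / D ^ (l + 1)) * n := by
    rw [pow_succ]
    ring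
  rw [h6] at h5
  have h7 : (∑ x, (dn R x : ℝ)) / (n * D) * n = (∑ x, (dn R x : ℝ)) / D := by
    field_simp
  have h8 : (((l : ℝ) + 2) ^ 2 * (1 + θ) / θ * (n ^ l / D ^ (l + 1)) +
        (1 - (∑ x, (dn R x : ℝ)) / (n * D)) + (2 ^ l + 1) * (2 * θ) +
          (l : ℝ) ^ 2 / D * ((∑ x, (dn R x : ℝ)) / (n * D))) * n =
      ((l : ℝ) + 2) ^ 2 * (1 + θ) / θ * (n ^ l / D ^ (l + 1)) * n +
        (n - (∑ x, (dn R x : ℝ)) / (n * D) * n) + (2 ^ l + 1) * (2 * θ) * n +
          (l : ℝ) ^ 2 / D * ((∑ x, (dn R x : ℝ)) / (n * D) * n) := by ring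
  have h9 : ∑ x, (l : ℝ) ^ 2 / D * ((dn R x : ℝ) / D) =
      (l : ℝ) ^ 2 / D * ((∑ x, (dn R x : ℝ)) / D) := by rw [← mul_sum, ← sum_div]
  rw [h9] at h5
  rw [h8, h7]
  linarith

end Pool.Agent.H94.EX
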