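import Pool.Agent.H94.EX.Ineq

/-!
The main step: comparison of the copies with `i`, `i + 1` and `i + 2` elements.
-/

set_option autoImplicit false

namespace Pool.Agent.H94.EX

open Finset

variable {V : Type} [Fintype V] [DecidableEq V] (R : V → V → Prop) [DecidableRel R]

open Classical in
/-- the elements with a large neighbourhood in the common neighbourhood of `I` -/
noncomputable def Ye (ε : ℝ) (I : Finset V) : Finset V :=
  (univ \ I).filter fun y => ε * cc R I < cc R (insert y I)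

open Classical in
/-- the other elements -/
noncomputable def Yg (ε : ℝ) (I : Finset V) : Finset V :=
  (univ \ I).filter fun y => ¬ ε * cc R I < cc R (insert y I)

/-- the sum over the other elements -/
noncomputable def Tg (k : ℕ) (ε : ℝ) (I : Finset V) : ℝ :=
  ∑ y ∈ Yg R ε I, cc R (insert y I) ^ (k + 1)

/-- the sum over the exceptional elements -/
noncomputable def Te (k : ℕ) (ε : ℝ) (I : Finset V) : ℝ :=
  ∑ y ∈ Ye R ε I, cc R (insert y I) ^ (k + 1)

/-- the bound for the size of the neighbourhoods to be considered -/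
noncomputable def c0 (k : ℕ) (ε : ℝ) : ℝ := 2 * ((k : ℝ) + 1) ^ 2 / ε

open Classical in
/-- the exceptional part -/
noncomputable def EE (k i : ℕ) (ε : ℝ) : ℝ :=
  nrm V k i fun I => if c0 k ε ≤ cc R I then Te R k ε I else 0

open Classical in
/-- the other part -/
noncomputable def GG (k i : ℕ) (ε : ℝ) : ℝ :=
  nrm V k i fun I => if c0 k ε ≤ cc R I then Tg R k ε I else 0

open Classical in
/-- the sum of squares -/
noncomputable def QQ (k i : ℕ) (ε : ℝ) : ℝ :=
  nrm V k i fun I => if c0 k ε ≤ cc R I then Tg R k ε I ^ 2 / cc R I ^ (k + 1) else 0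

variable {R}

theorem Te_add_Tg (k : ℕ) (ε : ℝ) (I : Finset V) :
    Te R k ε I + Tg R k ε I = ∑ y ∈ univ \ I, cc R (insert y I) ^ (k + 1) := by
  unfold Te Tg Ye Yg
  exact sum_filter_add_sum_filter_not _ _ _

theorem Te_nonneg (k : ℕ) (ε : ℝ) (I : Finset V) : 0 ≤ Te R k ε I :=
  sum_nonneg fun _ _ => pow_nonneg (cc_nonneg _) _

theorem Tg_nonneg (k : ℕ) (ε : ℝ) (I : Finset V) : 0 ≤ Tg R k ε I :=
  sum_nonneg fun _ _ => pow_nonneg (cc_nonneg _) _

theorem EE_nonneg (k i : ℕ) (ε : ℝ) : 0 ≤ EE R k i ε :=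
  nrm_nonneg fun I => by
    split_ifs
    · exact Te_nonneg _ _ _
    · exact le_rfl

theorem GG_nonneg (k i : ℕ) (ε : ℝ) : 0 ≤ GG R k i ε :=
  nrm_nonneg fun I => by
    split_ifs
    · exact Tg_nonneg _ _ _
    · exact le_rfl

theorem EG_le (k i : ℕ) (ε : ℝ) : EE R k i ε + GG R k i ε ≤ KK R k (i + 1) := by
  unfold EE GG KK
  rw [nrm_succ, ← nrm_add]
  refine nrm_mono fun I _ => ?_
  rw [← Te_add_Tg k ε]
  split_ifs
  · exact le_rfl
  · rw [add_zero]
    exact add_nonneg (Te_nonneg _ _ _) (Tg_nonneg _ _ _)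

theorem c0_pos {k : ℕ} {ε : ℝ} (hε : 0 < ε) : 0 < c0 k ε := by
  unfold c0
  positivity

theorem le_EG (k i : ℕ) {ε : ℝ} (hε : 0 < ε) : KK R k (i + 1) ≤ EE R k i ε + GG R k i ε +
    c0 k ε ^ (k + 1) * (Fintype.card V : ℝ) ^ (i + 1) / (Fintype.card V : ℝ) ^ (k + 1) := by
  have h1 : KK R k (i + 1) ≤ EE R k i ε + GG R k i ε +
      nrm V k (i + 1) fun _ => c0 k ε ^ (k + 1) := by
    unfold EE GG KK
    rw [nrm_succ, nrm_succ, ← nrm_add, ← nrm_add]
    refine nrm_mono fun I _ => ?_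
    rw [← Te_add_Tg k ε]
    split_ifs with h
    · have : 0 ≤ ∑ y ∈ univ \ I, c0 k ε ^ (k + 1) :=
        sum_nonneg fun _ _ => pow_nonneg (c0_pos hε).le _
      linarith
    · rw [add_zero, zero_add, Te_add_Tg]
      push Not at h
      exact sum_le_sum fun y _ => pow_le_pow_left₀ (cc_nonneg _) ((cc_insert_le I y).trans h.le) _
  have h2 := nrm_const_le (V := V) k (i + 1) (a := c0 k ε ^ (k + 1)) (pow_nonneg (c0_pos hε).le _)
  linarith

/-- a bound for the number of exceptional elements -/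
noncomputable def bb (k i τ : ℕ) (ε : ℝ) : ℝ := i + 1 + 2 * τ / ε ^ (k + 1)

theorem card_Ye {k τ : ℕ} (hF : Free R (k + 1) τ) {ε : ℝ} (hε : 0 < ε) {I : Finset V}
    (hI : c0 k ε ≤ cc R I) : ((Ye R ε I).card : ℝ) ≤ 2 * τ / ε ^ (k + 1) := by
  refine card_exc hF I hε hI _ fun y hy => ?_
  unfold Ye at hy
  rw [mem_filter, mem_sdiff] at hy
  exact ⟨hy.1.2, hy.2.le⟩

theorem QQ_mul (k i : ℕ) {ε : ℝ} (hε : 0 < ε) (hn : 0 < Fintype.card V) :
    GG R k i ε ^ 2 ≤ QQ R k i ε * KK R k i := by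
  classical
  have hn' : (0 : ℝ) < (Fintype.card V : ℝ) := by exact_mod_cast hn
  set P := (powersetCard i (univ : Finset V)).filter fun I => c0 k ε ≤ cc R I with hP
  have h1 : (∑ I ∈ P, Tg R k ε I) ^ 2 ≤
      (∑ I ∈ P, Tg R k ε I ^ 2 / cc R I ^ (k + 1)) * ∑ I ∈ P, cc R I ^ (k + 1) := by
    rcases P.eq_empty_or_nonempty with h0 | h0
    · rw [h0]; simp
    have hpos : ∀ I ∈ P, 0 < cc R I ^ (k + 1) := fun I hI =>
      pow_pos (lt_of_lt_of_le (c0_pos hε) (mem_filter.1 hI).2) _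
    have h2 := sq_sum_div_le_sum_sq_div P (fun I => Tg R k ε I) hpos
    rwa [div_le_iff₀ (sum_pos hpos h0)] at h2
  have h2 : ∑ I ∈ P, cc R I ^ (k + 1) ≤ ∑ I ∈ powersetCard i univ, cc R I ^ (k + 1) :=
    sum_le_sum_of_subset_of_nonneg (filter_subset _ _) fun _ _ _ => pow_nonneg (cc_nonneg _) _
  have h3 : 0 ≤ ∑ I ∈ P, Tg R k ε I ^ 2 / cc R I ^ (k + 1) :=
    sum_nonneg fun I _ => div_nonneg (sq_nonneg _) (pow_nonneg (cc_nonneg _) _)
  have h4 := h1.trans (mul_le_mul_of_nonneg_left h2 h3)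
  unfold GG QQ KK nrm
  rw [← sum_filter, ← sum_filter, div_pow, mul_pow, div_mul_div_comm, ← sq]
  refine div_le_div_of_nonneg_right ?_ (by positivity)
  have h5 := mul_le_mul_of_nonneg_left h4 (sq_nonneg (i.factorial : ℝ))
  refine h5.trans (le_of_eq ?_)
  ring

theorem QQ_ge (k i : ℕ) {ε : ℝ} (hε : 0 < ε) (M : ℝ) :
    2 * M * GG R k i ε - M ^ 2 * KK R k i ≤ QQ R k i ε := by
  classical
  unfold GG QQ KK
  rw [← nrm_mul, ← nrm_mul, sub_le_iff_le_add, ← nrm_add]
  refine nrm_mono fun I _ => ?_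
  split_ifs with h
  · have hc : 0 < cc R I ^ (k + 1) := pow_pos (lt_of_lt_of_le (c0_pos hε) h) _
    have h2 : 0 ≤ (Tg R k ε I - M * cc R I ^ (k + 1)) ^ 2 / cc R I ^ (k + 1) :=
      div_nonneg (sq_nonneg _) hc.le
    have h3 : (Tg R k ε I - M * cc R I ^ (k + 1)) ^ 2 / cc R I ^ (k + 1) =
        Tg R k ε I ^ 2 / cc R I ^ (k + 1) - 2 * M * Tg R k ε I + M ^ 2 * cc R I ^ (k + 1) := by
      field_simp
      ring
    linarith
  · have := mul_nonneg (sq_nonneg M) (pow_nonneg (cc_nonneg (R := R) I) (k + 1))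
    linarith

/-- the sum over the good elements is large -/
theorem GG_ge {k τ : ℕ} (hF : Free R (k + 1) τ) (hn : 0 < Fintype.card V) (i : ℕ) {ε D : ℝ}
    (hε : 0 < ε) (hD : 0 < D) (u : V → ℝ) (hu0 : ∀ x, 0 ≤ u x)
    (hd : ∀ x, D * (1 - u x) ≤ dd R x) (hb : ((k : ℝ) + 1) * (bb k i τ ε / D) ≤ 1) :
    D ^ (k + 1) / (Fintype.card V : ℝ) ^ k * ((1 - ((k : ℝ) + 1) * (bb k i τ ε / D)) *
      (KK R k i - c0 k ε ^ (k + 1) * (Fintype.card V : ℝ) ^ i / (Fintype.card V : ℝ) ^ (k + 1)) -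
        ((k : ℝ) + 1) * Aj R u k i) ≤ GG R k i ε := by
  classical
  set M : ℝ := D ^ (k + 1) / (Fintype.card V : ℝ) ^ k with hM
  have hM0 : 0 ≤ M := by positivity
  set η : ℝ := ((k : ℝ) + 1) * (bb k i τ ε / D) with hη
  have h2 := nrm_const_le (V := V) k i (a := c0 k ε ^ (k + 1)) (pow_nonneg (c0_pos hε).le _)
  have h3 : M * ((1 - η) * (KK R k i - nrm V k i fun _ => c0 k ε ^ (k + 1)) -
      ((k : ℝ) + 1) * Aj R u k i) ≤ GG R k i ε := by
    have h4 : M * ((1 - η) * (KK R k i - nrm V k i fun _ => c0 k ε ^ (k + 1)) -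
      ((k : ℝ) + 1) * Aj R u k i) = nrm V k i fun I => (M * (1 - η)) * cc R I ^ (k + 1) +
        ((-(M * (1 - η))) * c0 k ε ^ (k + 1) +
          (-(M * ((k : ℝ) + 1))) * (cc R I ^ k * ∑ x ∈ nb R I, u x)) := by
      rw [nrm_add, nrm_add, nrm_mul, nrm_mul, nrm_mul]
      unfold KK Aj
      ring
    rw [h4]
    unfold GG
    refine nrm_mono fun I hI => ?_
    have hS0 : 0 ≤ cc R I ^ k * ∑ x ∈ nb R I, u x :=
      mul_nonneg (pow_nonneg (cc_nonneg _) _) (sum_nonneg fun x _ => hu0 x)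
    split_ifs with h
    · have h5 := add_one_ge k I (Ye R ε I) (b := bb k i τ ε) hD u hd (by
        have h6 := card_union_le I (Ye R ε I)
        have h7 := card_Ye hF hε h
        have h8 : ((I ∪ Ye R ε I).card : ℝ) ≤ (I.card : ℝ) + ((Ye R ε I).card : ℝ) := by
          exact_mod_cast h6
        rw [hI] at h8
        unfold bb
        linarith) hn
      have h6 : univ \ (I ∪ Ye R ε I) = Yg R ε I := by
        ext y
        unfold Ye Yg
        simp only [mem_sdiff, mem_univ, true_and, mem_union, mem_filter]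
        tauto
      rw [h6] at h5
      have h9 : 0 ≤ M * (1 - η) * c0 k ε ^ (k + 1) :=
        mul_nonneg (mul_nonneg hM0 (by linarith)) (pow_nonneg (c0_pos hε).le _)
      refine le_trans ?_ h5
      rw [← hM]
      have h7 : M * (cc R I ^ (k + 1) - ((k : ℝ) + 1) * cc R I ^ k *
          ((∑ x ∈ nb R I, u x) + bb k i τ ε / D * cc R I)) =
          M * (1 - η) * cc R I ^ (k + 1) -
            M * ((k : ℝ) + 1) * (cc R I ^ k * ∑ x ∈ nb R I, u x) := by
        rw [hη]
        ring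
      rw [h7]
      linarith
    · push Not at h
      have h5 : cc R I ^ (k + 1) ≤ c0 k ε ^ (k + 1) := pow_le_pow_left₀ (cc_nonneg _) h.le _
      have h6 : M * (1 - η) * cc R I ^ (k + 1) ≤ M * (1 - η) * c0 k ε ^ (k + 1) :=
        mul_le_mul_of_nonneg_left h5 (mul_nonneg hM0 (by linarith))
      have h7 : 0 ≤ M * ((k : ℝ) + 1) * (cc R I ^ k * ∑ x ∈ nb R I, u x) := by positivity
      linarith
  refine le_trans ?_ h3
  refine mul_le_mul_of_nonneg_left ?_ hM0
  have h5 : 0 ≤ 1 - η := by linarith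
  nlinarith

/-- **the main step** -/
theorem step {k τ : ℕ} (hF : Free R (k + 1) τ) (hn : 0 < Fintype.card V) (i : ℕ) {ε D : ℝ}
    (hε : 0 < ε) (hD : 0 < D) (u : V → ℝ) (hu0 : ∀ x, 0 ≤ u x)
    (hd : ∀ x, D * (1 - u x) ≤ dd R x) :
    2 * (D ^ (k + 1) / (Fintype.card V : ℝ) ^ k *
      ((1 - ((k : ℝ) + 1) * (bb k i τ ε / D)) * EE R k i ε - ((k : ℝ) + 1) * Aj R u k (i + 1))) +
        QQ R k i ε - ((k : ℝ) + 1) * ε ^ k * GG R k i ε ≤ KK R k (i + 2) := by
  classical
  set M : ℝ := D ^ (k + 1) / (Fintype.card V : ℝ) ^ k with hM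
  have hM0 : 0 ≤ M := by positivity
  set η : ℝ := ((k : ℝ) + 1) * (bb k i τ ε / D) with hη
  have h0 : 2 * (M * ((1 - η) * EE R k i ε - ((k : ℝ) + 1) * Aj R u k (i + 1))) +
        QQ R k i ε - ((k : ℝ) + 1) * ε ^ k * GG R k i ε =
      nrm V k i fun I => (2 * M * (1 - η)) * (if c0 k ε ≤ cc R I then Te R k ε I else 0) +
        ((-(2 * M * ((k : ℝ) + 1))) *
          (∑ y ∈ univ \ I, cc R (insert y I) ^ k * ∑ x ∈ nb R (insert y I), u x) +
        (1 * (if c0 k ε ≤ cc R I then Tg R k ε I ^ 2 / cc R I ^ (k + 1) else 0) +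
          (-(((k : ℝ) + 1) * ε ^ k)) * (if c0 k ε ≤ cc R I then Tg R k ε I else 0))) := by
    rw [nrm_add, nrm_add, nrm_add, nrm_mul, nrm_mul, nrm_mul, nrm_mul]
    unfold EE GG QQ Aj
    rw [nrm_succ]
    ring
  rw [h0]
  unfold KK
  rw [nrm_succ, nrm_succ]
  refine nrm_mono fun I hI => ?_
  have hf0 : ∀ J : Finset V, 0 ≤ cc R J ^ k * ∑ x ∈ nb R J, u x := fun J =>
    mul_nonneg (pow_nonneg (cc_nonneg _) _) (sum_nonneg fun x _ => hu0 x)
  have hg0 : ∀ J : Finset V, 0 ≤ cc R J ^ (k + 1) := fun J => pow_nonneg (cc_nonneg _) _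
  split_ifs with h
  · -- the set `I` is large
    set w : V → V → ℝ := fun x y => cc R (insert y (insert x I)) ^ (k + 1) with hw
    have hw0 : ∀ x y, 0 ≤ w x y := fun x y => hg0 _
    have hwc : ∀ x y, w x y = w y x := fun x y => by
      show cc R _ ^ _ = cc R _ ^ _
      rw [insert_comm]
    have hdisj : Disjoint (Ye R ε I) (Yg R ε I) := by
      unfold Ye Yg
      exact disjoint_filter_filter_not _ _ _
    have hU : ∀ x ∈ univ \ I, univ \ (insert x I) = (univ \ I).erase x := by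
      intro x _
      ext y
      simp only [mem_sdiff, mem_univ, true_and, mem_insert, mem_erase]
      tauto
    have hsub_e : Ye R ε I ⊆ univ \ I := filter_subset _ _
    have hsub_g : Yg R ε I ⊆ univ \ I := filter_subset _ _
    have h1 : ∑ x ∈ Yg R ε I, ∑ y ∈ (Yg R ε I).erase x, w x y +
        2 * ∑ x ∈ Ye R ε I, ∑ y ∈ Yg R ε I, w x y ≤
        ∑ x ∈ univ \ I, ∑ y ∈ univ \ (insert x I), w x y := by
      have h2 : ∑ x ∈ univ \ I, ∑ y ∈ univ \ (insert x I), w x y =
          ∑ x ∈ Ye R ε I, ∑ y ∈ (univ \ I).erase x, w x y +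
            ∑ x ∈ Yg R ε I, ∑ y ∈ (univ \ I).erase x, w x y := by
        have h3 : univ \ I = Ye R ε I ∪ Yg R ε I := by
          unfold Ye Yg
          exact (filter_union_filter_not_eq _ _).symm
        rw [sum_congr rfl fun x hx => by rw [hU x hx]]
        conv_lhs => rw [h3]
        rw [sum_union hdisj, ← h3]
      have h3 : ∑ x ∈ Ye R ε I, ∑ y ∈ Yg R ε I, w x y ≤
          ∑ x ∈ Ye R ε I, ∑ y ∈ (univ \ I).erase x, w x y := by
        refine sum_le_sum fun x hx => ?_
        refine sum_le_sum_of_subset_of_nonneg (fun y hy => ?_) fun _ _ _ => hw0 _ _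
        exact mem_erase.2 ⟨fun hxy => (disjoint_left.1 hdisj) hx (hxy ▸ hy), hsub_g hy⟩
      have h4 : ∑ x ∈ Yg R ε I, ∑ y ∈ (Yg R ε I).erase x, w x y +
          ∑ x ∈ Yg R ε I, ∑ y ∈ Ye R ε I, w x y ≤
          ∑ x ∈ Yg R ε I, ∑ y ∈ (univ \ I).erase x, w x y := by
        rw [← sum_add_distrib]
        refine sum_le_sum fun x hx => ?_
        rw [← sum_union (hdisj.symm.mono_left (erase_subset _ _))]
        refine sum_le_sum_of_subset_of_nonneg (fun y hy => ?_) fun _ _ _ => hw0 _ _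
        rcases mem_union.1 hy with hy | hy
        · exact mem_erase.2 ⟨(mem_erase.1 hy).1, hsub_g (mem_erase.1 hy).2⟩
        · exact mem_erase.2 ⟨fun hxy => (disjoint_left.1 hdisj) hy (hxy ▸ hx), hsub_e hy⟩
      have h5 : ∑ x ∈ Yg R ε I, ∑ y ∈ Ye R ε I, w x y =
          ∑ x ∈ Ye R ε I, ∑ y ∈ Yg R ε I, w x y := by
        rw [sum_comm]
        exact sum_congr rfl fun x _ => sum_congr rfl fun y _ => hwc _ _
      linarith
    have hcI : 0 < cc R I := lt_of_lt_of_le (c0_pos hε) h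
    -- pairs of good elements
    have h2 : Tg R k ε I ^ 2 / cc R I ^ (k + 1) - ((k : ℝ) + 1) * ε ^ k * Tg R k ε I ≤
        ∑ x ∈ Yg R ε I, ∑ y ∈ (Yg R ε I).erase x, w x y := by
      have h3 := pairs_ge (nb R I) (Yg R ε I) (fun y => (nb R I).filter fun x => R x y)
        (fun y _ => filter_subset _ _) k ε (cc R I) rfl hcI hε.le (fun y hy => by
          unfold Yg at hy
          rw [mem_filter] at hy
          have h4 := not_lt.1 hy.2
          unfold cc at h4 ⊢
          rw [nb_insert] at h4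
          exact h4) (Tg R k ε I) (by
          unfold Tg cc
          exact sum_congr rfl fun y _ => by rw [nb_insert])
      refine h3.trans (le_of_eq ?_)
      refine sum_congr rfl fun x _ => sum_congr rfl fun y _ => ?_
      show _ = cc R _ ^ _
      unfold cc
      rw [nb_insert, nb_insert]
      congr 3
      ext z
      simp only [mem_inter, mem_filter]
      tauto
    -- exceptional elements
    have h3 : ∀ x ∈ Ye R ε I, M * (1 - η) * cc R (insert x I) ^ (k + 1) -
        M * ((k : ℝ) + 1) * (cc R (insert x I) ^ k * ∑ z ∈ nb R (insert x I), u z) ≤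
        ∑ y ∈ Yg R ε I, w x y := by
      intro x hx
      have hxU := hsub_e hx
      have h5 := add_one_ge k (insert x I) (Ye R ε I) (b := bb k i τ ε) hD u hd (by
        have h6 := card_union_le (insert x I) (Ye R ε I)
        have h7 := card_Ye hF hε h
        have h8 : ((insert x I ∪ Ye R ε I).card : ℝ) ≤
          ((insert x I).card : ℝ) + ((Ye R ε I).card : ℝ) := by exact_mod_cast h6
        have h9 : (insert x I).card = i + 1 := by
          rw [card_insert_of_notMem (mem_sdiff.1 hxU).2, hI]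
        rw [h9] at h8
        push_cast at h8
        unfold bb
        linarith) hn
      have h6 : univ \ (insert x I ∪ Ye R ε I) = Yg R ε I := by
        ext y
        unfold Ye Yg
        unfold Ye at hx
        simp only [mem_sdiff, mem_univ, true_and, mem_union, mem_filter, mem_insert] at hx ⊢
        by_cases hyx : y = x
        · subst hyx
          simp [hx.2]
        · tauto
      rw [h6] at h5
      refine le_trans (le_of_eq ?_) h5
      rw [← hM, hη]
      ring
    have h4 := sum_le_sum h3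
    rw [sum_sub_distrib, ← mul_sum, ← mul_sum] at h4
    have h5 : ∑ x ∈ Ye R ε I, cc R (insert x I) ^ k * ∑ z ∈ nb R (insert x I), u z ≤
        ∑ x ∈ univ \ I, cc R (insert x I) ^ k * ∑ z ∈ nb R (insert x I), u z :=
      sum_le_sum_of_subset_of_nonneg hsub_e fun _ _ _ => hf0 _
    have h6 : 0 ≤ M * ((k : ℝ) + 1) := by positivity
    have h7 := mul_le_mul_of_nonneg_left h5 h6
    change M * (1 - η) * Te R k ε I - _ ≤ _ at h4
    linarith
  · simp only [mul_zero, add_zero, zero_add]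
    have h1 : 0 ≤ 2 * M * ((k : ℝ) + 1) *
        ∑ y ∈ univ \ I, cc R (insert y I) ^ k * ∑ x ∈ nb R (insert y I), u x :=
      mul_nonneg (by positivity) (sum_nonneg fun _ _ => hf0 _)
    have h2 : 0 ≤ ∑ y ∈ univ \ I, ∑ z ∈ univ \ (insert y I),
        cc R (insert z (insert y I)) ^ (k + 1) :=
      sum_nonneg fun _ _ => sum_nonneg fun _ _ => hg0 _
    linarith

end Pool.Agent.H94.EX
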